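import Pool.Agent.Helper66.RMT.Defs

/-!
# Random matrix model: small values of linear forms (block A5)
-/

set_option autoImplicit false

namespace Pool.Agent.Helper66.RMT

open MeasureTheory ProbabilityTheory Filter Finset

private noncomputable def W99 {N : ℕ} (θ : Fin N → ℝ) : ℝ :=
  ∏ j, ∏ k, if j = k then 1 else ‖Complex.exp (θ j * Complex.I) - Complex.exp (θ k * Complex.I)‖

private lemma vdm_eq99 {N : ℕ} (θ : Fin N → ℝ) : vdm θ = W99 θ := by
  set g : Fin N → Fin N → ℝ := fun j k => ‖Complex.exp (θ j * Complex.I) - Complex.exp (θ k * Complex.I)‖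
    with hg
  have hsym : ∀ j k, g j k = g k j := fun j k => norm_sub_rev _ _
  have h1 : ∀ j k : Fin N, (if j = k then 1 else g j k) =
      (if j < k then g j k else 1) * (if k < j then g j k else 1) := by
    intro j k
    rcases lt_trichotomy j k with h | h | h
    · simp [h, h.ne, h.not_gt]
    · simp [h]
    · simp [h, h.ne', h.not_gt]
  have h2 : (∏ j, ∏ k, if k < j then g j k else 1) = ∏ j, ∏ k, if j < k then g j k else 1 := by
    rw [Finset.prod_comm]
    refine Finset.prod_congr rfl fun j _ => Finset.prod_congr rfl fun k _ => ?_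
    rw [hsym]
  have h3 : ∀ j : Fin N, (∏ k, if j < k then g j k else 1) = ∏ k ∈ Ioi j, g j k := by
    intro j
    rw [← Finset.prod_filter]
    congr 1
    ext k
    simp
  have h4 : W99 θ = ∏ j, ∏ k, (if j = k then 1 else g j k) := rfl
  have h5 : vdm θ = ∏ j, ∏ k ∈ Ioi j, g j k ^ 2 := rfl
  rw [h4, h5]
  simp only [h1, Finset.prod_mul_distrib]
  rw [h2]
  simp only [h3, Finset.prod_pow]
  rw [sq]

private lemma W_insert99 {M : ℕ} (i : Fin (M + 1)) (θ : Fin (M + 1) → ℝ) :
    W99 θ = (∏ k : Fin M, ‖Complex.exp (θ i * Complex.I) - Complex.exp (θ (i.succAbove k) * Complex.I)‖) ^ 2 *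
      W99 (fun k => θ (i.succAbove k)) := by
  unfold W99
  rw [Fin.prod_univ_succAbove _ i, Fin.prod_univ_succAbove _ i]
  simp only [Fin.prod_univ_succAbove _ i, if_true, one_mul, Fin.succAbove_ne, if_false,
    (Fin.succAbove_ne i _).symm, Fin.succAbove_right_inj, Finset.prod_mul_distrib]
  rw [sq, mul_assoc]
  congr 2
  refine Finset.prod_congr rfl fun k _ => ?_
  rw [norm_sub_rev]

private lemma W_nonneg99 {N : ℕ} (θ : Fin N → ℝ) : 0 ≤ W99 θ := by
  unfold W99
  refine Finset.prod_nonneg fun j _ => Finset.prod_nonneg fun k _ => ?_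
  split_ifs
  · exact zero_le_one
  · exact norm_nonneg _

private lemma vdm_le99 {M : ℕ} (i : Fin (M + 1)) (θ : Fin (M + 1) → ℝ) :
    vdm θ ≤ 4 ^ M * vdm (fun k => θ (i.succAbove k)) := by
  rw [vdm_eq99, vdm_eq99, W_insert99 i]
  refine mul_le_mul_of_nonneg_right ?_ (W_nonneg99 _)
  have h : (∏ k : Fin M, ‖Complex.exp (θ i * Complex.I) - Complex.exp (θ (i.succAbove k) * Complex.I)‖) ≤ 2 ^ M := by
    calc _ ≤ ∏ _k : Fin M, (2 : ℝ) := by
          refine Finset.prod_le_prod (fun k _ => norm_nonneg _) fun k _ => ?_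
          calc _ ≤ ‖Complex.exp (θ i * Complex.I)‖ + ‖Complex.exp (θ (i.succAbove k) * Complex.I)‖ :=
                norm_sub_le _ _
            _ = 2 := by rw [Complex.norm_exp_ofReal_mul_I, Complex.norm_exp_ofReal_mul_I]; norm_num
      _ = 2 ^ M := by simp
  calc _ ≤ ((2 : ℝ) ^ M) ^ 2 := pow_le_pow_left₀ (Finset.prod_nonneg fun k _ => norm_nonneg _) h 2
    _ = 4 ^ M := by rw [← pow_mul, mul_comm, pow_mul]; norm_num

private lemma cont_vdm99 {N : ℕ} : Continuous (vdm : (Fin N → ℝ) → ℝ) := by
  unfold vdm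
  fun_prop

private lemma meas_box99 (N : ℕ) : MeasurableSet (box N) :=
  MeasurableSet.univ_pi fun _ => measurableSet_Ico

/-- A5 with the normalisation as a hypothesis -/
theorem lin_small_of {N : ℕ} (hP : ∀ M, IsProbabilityMeasure (cue M)) (m : Fin N → ℤ) (hm : m ≠ 0) (c δ : ℝ)
    (hδ : 0 < δ) :
    cue N {θ | |∑ j, (m j : ℝ) * θ j + c| < δ} ≤ ENNReal.ofReal (4 ^ N * δ) := by
  obtain ⟨i, hi⟩ := Function.ne_iff.1 hm
  obtain ⟨M, rfl⟩ : ∃ M, N = M + 1 := ⟨N - 1, by have := i.2; omega⟩
  have hi0 : m i ≠ 0 := hi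
  have hA : MeasurableSet {θ : Fin (M + 1) → ℝ | |∑ j, (m j : ℝ) * θ j + c| < δ} := by
    refine (isOpen_lt ?_ continuous_const).measurableSet
    fun_prop
  set A := {θ : Fin (M + 1) → ℝ | |∑ j, (m j : ℝ) * θ j + c| < δ} with hAdef
  set e := MeasurableEquiv.piFinSuccAbove (fun _ : Fin (M + 1) => ℝ) i with he
  have hmp : MeasurePreserving e volume ((volume : Measure ℝ).prod (volume : Measure (Fin M → ℝ))) :=
    volume_preserving_piFinSuccAbove (fun _ : Fin (M + 1) => ℝ) i
  -- the weight
  set w : (Fin (M + 1) → ℝ) → ENNReal := fun θ => ENNReal.ofReal (vdm θ / ((M + 1).factorial * (2 * Real.pi) ^ (M + 1)))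
    with hw
  set w' : (Fin M → ℝ) → ENNReal := fun φ => ENNReal.ofReal (vdm φ / (M.factorial * (2 * Real.pi) ^ M)) with hw'
  set K : ENNReal := ENNReal.ofReal (4 ^ M / ((M + 1) * (2 * Real.pi))) with hK
  have hwm : Measurable w := by
    refine ENNReal.measurable_ofReal.comp ?_
    exact (cont_vdm99.measurable).div_const _
  have hw'm : Measurable w' := by
    refine ENNReal.measurable_ofReal.comp ?_
    exact (cont_vdm99.measurable).div_const _
  have hww : ∀ θ, w θ ≤ K * w' (fun k => θ (i.succAbove k)) := by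
    intro θ
    rw [hw, hw', hK, ← ENNReal.ofReal_mul (by positivity)]
    refine ENNReal.ofReal_le_ofReal ?_
    have h := vdm_le99 i θ
    have h2 : (0 : ℝ) < (M.factorial : ℝ) * (2 * Real.pi) ^ M := by positivity
    have h3 : (((M + 1).factorial : ℕ) : ℝ) = (M + 1) * M.factorial := by
      rw [Nat.factorial_succ]; push_cast; ring
    rw [h3, pow_succ, div_mul_div_comm]
    rw [div_le_div_iff₀ (by positivity) (by positivity)]
    calc vdm θ * ((M + 1) * (2 * Real.pi) * (M.factorial * (2 * Real.pi) ^ M))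
        ≤ (4 ^ M * vdm fun k => θ (i.succAbove k)) * ((M + 1) * (2 * Real.pi) * (M.factorial * (2 * Real.pi) ^ M)) :=
          mul_le_mul_of_nonneg_right h (by positivity)
      _ = _ := by ring
  -- the slice
  have hslice : ∀ φ : Fin M → ℝ, (∫⁻ t : ℝ, Set.indicator {t : ℝ | |(m i : ℝ) * t + (∑ k, (m (i.succAbove k) : ℝ) * φ k + c)| < δ}
      (fun _ => (1 : ENNReal)) t) ≤ ENNReal.ofReal (2 * δ) := by
    intro φ
    set d := ∑ k, (m (i.succAbove k) : ℝ) * φ k + c with hd
    have hsub : {t : ℝ | |(m i : ℝ) * t + d| < δ} ⊆ Metric.ball (-d / (m i : ℝ)) δ := by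
      intro t ht
      rw [Set.mem_ofPred_eq] at ht
      rw [Metric.mem_ball, Real.dist_eq]
      have hmi : (m i : ℝ) ≠ 0 := by exact_mod_cast hi0
      have h1 : (1 : ℝ) ≤ |(m i : ℝ)| := by
        rw [← Int.cast_abs]
        exact_mod_cast Int.one_le_abs hi0
      have h2 : (m i : ℝ) * t + d = (m i : ℝ) * (t - -d / (m i : ℝ)) := by field_simp; ring
      rw [h2, abs_mul] at ht
      calc |t - -d / (m i : ℝ)| ≤ |(m i : ℝ)| * |t - -d / (m i : ℝ)| := by
            nlinarith [abs_nonneg (t - -d / (m i : ℝ))]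
        _ < δ := ht
    have hms : MeasurableSet {t : ℝ | |(m i : ℝ) * t + d| < δ} := by
      refine (isOpen_lt ?_ continuous_const).measurableSet
      fun_prop
    calc (∫⁻ t : ℝ, Set.indicator {t : ℝ | |(m i : ℝ) * t + d| < δ} (fun _ => (1 : ENNReal)) t)
        = volume {t : ℝ | |(m i : ℝ) * t + d| < δ} := by
          rw [lintegral_indicator hms]; simp
      _ ≤ volume (Metric.ball (-d / (m i : ℝ)) δ) := measure_mono hsub
      _ = ENNReal.ofReal (2 * δ) := Real.volume_ball _ _
  have hbox : ∀ θ : Fin (M + 1) → ℝ, θ ∈ box (M + 1) → (fun k => θ (i.succAbove k)) ∈ box M := by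
    intro θ hθ
    unfold box at hθ ⊢
    rw [Set.mem_univ_pi] at hθ ⊢
    exact fun k => hθ _
  calc cue (M + 1) A = ∫⁻ θ, Set.indicator (A ∩ box (M + 1)) w θ := by
        unfold cue
        rw [withDensity_apply _ hA, Measure.restrict_restrict hA,
          lintegral_indicator (hA.inter (meas_box99 _))]
    _ ≤ ∫⁻ θ, (fun p : ℝ × (Fin M → ℝ) =>
          Set.indicator {t : ℝ | |(m i : ℝ) * t + (∑ k, (m (i.succAbove k) : ℝ) * p.2 k + c)| < δ}
            (fun _ => (1 : ENNReal)) p.1 * (K * Set.indicator (box M) w' p.2)) (e θ) := by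
        refine lintegral_mono fun θ => ?_
        by_cases hθ : θ ∈ A ∩ box (M + 1)
        · rw [Set.indicator_of_mem hθ]
          have e1 : (e θ).1 = θ i := rfl
          have e2 : (e θ).2 = fun k => θ (i.succAbove k) := rfl
          have hA' : |∑ j, (m j : ℝ) * θ j + c| < δ := hθ.1
          rw [Fin.sum_univ_succAbove _ i, add_assoc] at hA'
          show w θ ≤ Set.indicator {t : ℝ | |(m i : ℝ) * t + (∑ k, (m (i.succAbove k) : ℝ) * (e θ).2 k + c)| < δ}
            (fun _ => (1 : ENNReal)) (e θ).1 * (K * Set.indicator (box M) w' (e θ).2)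
          rw [e1, e2, Set.indicator_of_mem (show θ i ∈ {t : ℝ | |(m i : ℝ) * t +
            (∑ k, (m (i.succAbove k) : ℝ) * θ (i.succAbove k) + c)| < δ} from hA'),
            Set.indicator_of_mem (hbox θ hθ.2), one_mul]
          exact hww θ
        · rw [Set.indicator_of_notMem hθ]
          exact zero_le
    _ = ∫⁻ p : ℝ × (Fin M → ℝ), Set.indicator {t : ℝ | |(m i : ℝ) * t + (∑ k, (m (i.succAbove k) : ℝ) * p.2 k + c)| < δ}
            (fun _ => (1 : ENNReal)) p.1 * (K * Set.indicator (box M) w' p.2) ∂(volume.prod volume) :=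
        hmp.lintegral_comp_emb e.measurableEmbedding (fun p : ℝ × (Fin M → ℝ) =>
          Set.indicator {t : ℝ | |(m i : ℝ) * t + (∑ k, (m (i.succAbove k) : ℝ) * p.2 k + c)| < δ}
            (fun _ => (1 : ENNReal)) p.1 * (K * Set.indicator (box M) w' p.2))
    _ ≤ ∫⁻ φ : Fin M → ℝ, ∫⁻ t : ℝ, Set.indicator {t : ℝ | |(m i : ℝ) * t + (∑ k, (m (i.succAbove k) : ℝ) * φ k + c)| < δ}
            (fun _ => (1 : ENNReal)) t * (K * Set.indicator (box M) w' φ) := by
        refine le_of_eq (lintegral_prod_symm _ ?_)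
        refine Measurable.aemeasurable ?_
        refine Measurable.mul ?_ ?_
        · have hms : MeasurableSet {p : ℝ × (Fin M → ℝ) | |(m i : ℝ) * p.1 + (∑ k, (m (i.succAbove k) : ℝ) * p.2 k + c)| < δ} := by
            refine (isOpen_lt ?_ continuous_const).measurableSet
            fun_prop
          exact (measurable_const (a := (1 : ENNReal))).indicator hms
        · exact (measurable_const.mul ((hw'm.indicator (meas_box99 M)).comp measurable_snd))
    _ ≤ ∫⁻ φ : Fin M → ℝ, ENNReal.ofReal (2 * δ) * (K * Set.indicator (box M) w' φ) := by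
        refine lintegral_mono fun φ => ?_
        have hms : Measurable fun t : ℝ => Set.indicator {t : ℝ | |(m i : ℝ) * t + (∑ k, (m (i.succAbove k) : ℝ) * φ k + c)| < δ}
            (fun _ => (1 : ENNReal)) t := by
          refine measurable_const.indicator ?_
          refine (isOpen_lt ?_ continuous_const).measurableSet
          fun_prop
        rw [lintegral_mul_const _ hms]
        exact mul_le_mul_left (hslice φ) _
    _ = ENNReal.ofReal (2 * δ) * (K * cue M Set.univ) := by
        have hq : Measurable fun φ : Fin M → ℝ => K * Set.indicator (box M) w' φ :=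
          measurable_const.mul (hw'm.indicator (meas_box99 M))
        rw [lintegral_const_mul _ hq, lintegral_const_mul _ (hw'm.indicator (meas_box99 M))]
        congr 2
        unfold cue
        rw [withDensity_apply _ MeasurableSet.univ, Measure.restrict_univ, lintegral_indicator (meas_box99 M)]
    _ ≤ ENNReal.ofReal (4 ^ (M + 1) * δ) := by
        rw [(hP M).measure_univ, mul_one, hK, ← ENNReal.ofReal_mul (by positivity)]
        refine ENNReal.ofReal_le_ofReal ?_
        have hpi : (1 : ℝ) ≤ (M + 1) * (2 * Real.pi) := by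
          have : (3 : ℝ) < Real.pi := Real.pi_gt_three
          have hM : (0 : ℝ) ≤ M := Nat.cast_nonneg M
          nlinarith
        calc 2 * δ * (4 ^ M / ((M + 1) * (2 * Real.pi))) ≤ 2 * δ * (4 ^ M / 1) := by
              refine mul_le_mul_of_nonneg_left ?_ (by positivity)
              exact div_le_div_of_nonneg_left (by positivity) one_pos hpi
          _ ≤ 4 ^ (M + 1) * δ := by
              rw [div_one, pow_succ]
              have : (0 : ℝ) < 4 ^ M := by positivity
              nlinarith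

end Pool.Agent.Helper66.RMT
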