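import Pool.Agent.Helper66.RMT.DefsW
import Pool.Agent.Helper66.RMT.Lln2
import Pool.Agent.Helper96.RMT.TailW

/-!
# Random matrix model, step 2: the law of large numbers for the weighted absolute values
-/

set_option autoImplicit false

namespace Pool.Agent.Helper66.RMT

open MeasureTheory ProbabilityTheory Filter Finset Topology

/-- Abel summation: a Cesaro mean is also the mean for a decreasing weight. -/
private theorem abel_avg99 {d w : ℕ → ℝ} {m : ℝ} (hw : Antitone w) (hw0 : ∀ n, 0 ≤ w n)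
    (hW : Tendsto (fun K : ℕ => ∑ n ∈ range K, w n) atTop atTop)
    (hd : Tendsto (fun K : ℕ => (∑ n ∈ range K, d n) / K) atTop (𝓝 m)) :
    (fun K : ℕ => ∑ n ∈ range K, (d n - m) * w n) =o[atTop] fun K : ℕ => ∑ n ∈ range K, w n := by
  set E : ℕ → ℝ := fun K => ∑ n ∈ range K, (d n - m) with hE
  have hEo : E =o[atTop] fun K : ℕ => (K : ℝ) := by
    rw [Asymptotics.isLittleO_iff_tendsto']
    · have h1 : Tendsto (fun K : ℕ => (∑ n ∈ range K, d n) / K - m) atTop (𝓝 (m - m)) :=
        hd.sub tendsto_const_nhds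
      rw [sub_self] at h1
      refine h1.congr' ?_
      filter_upwards [eventually_gt_atTop 0] with K hK
      have hK' : (0 : ℝ) < K := by exact_mod_cast hK
      simp only [hE, sum_sub_distrib, sum_const, card_range, nsmul_eq_mul]
      field_simp
    · filter_upwards [eventually_gt_atTop 0] with K hK h0
      have hK' : (0 : ℝ) < K := by exact_mod_cast hK
      exact absurd h0 hK'.ne'
  have habel : ∀ K : ℕ, ∑ n ∈ range K, (d n - m) * w n =
      E K * w K + ∑ n ∈ range K, E (n + 1) * (w n - w (n + 1)) := by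
    intro K
    induction K with
    | zero => simp [hE]
    | succ K ih =>
      rw [sum_range_succ, ih, sum_range_succ (fun n => E (n + 1) * (w n - w (n + 1)))]
      have : E (K + 1) = E K + (d K - m) := by
        simp only [hE]
        rw [sum_range_succ]
      rw [this]
      ring
  have hKw : ∀ K : ℕ, (K : ℝ) * w K ≤ ∑ n ∈ range K, w n := by
    intro K
    have h1 : ∑ n ∈ range K, w K ≤ ∑ n ∈ range K, w n :=
      sum_le_sum fun n hn => hw (mem_range.mp hn).le
    simpa using h1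
  have h1 : (fun K : ℕ => E K * w K) =o[atTop] fun K : ℕ => ∑ n ∈ range K, w n := by
    have h2 : (fun K : ℕ => E K * w K) =o[atTop] fun K : ℕ => (K : ℝ) * w K :=
      hEo.mul_isBigO (Asymptotics.isBigO_refl _ _)
    refine h2.trans_isBigO (Asymptotics.IsBigO.of_bound 1 (Eventually.of_forall fun K => ?_))
    rw [one_mul, Real.norm_of_nonneg (mul_nonneg (Nat.cast_nonneg K) (hw0 K)),
      Real.norm_of_nonneg (sum_nonneg fun n _ => hw0 n)]
    exact hKw K
  have h2 : (fun K : ℕ => ∑ n ∈ range K, E (n + 1) * (w n - w (n + 1))) =o[atTop]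
      fun K : ℕ => ∑ n ∈ range K, w n := by
    set g : ℕ → ℝ := fun n => ((n : ℝ) + 1) * (w n - w (n + 1)) + w n with hg
    have hg0 : ∀ n, 0 ≤ g n := by
      intro n
      have := hw (Nat.le_succ n)
      have h3 : 0 ≤ w n - w (n + 1) := by
        simp only [Nat.succ_eq_add_one] at this
        linarith
      have := hw0 n
      simp only [hg]
      positivity
    have hgw : ∀ n, w n ≤ g n := by
      intro n
      have := hw (Nat.le_succ n)
      have h3 : 0 ≤ w n - w (n + 1) := by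
        simp only [Nat.succ_eq_add_one] at this
        linarith
      have h4 : 0 ≤ ((n : ℝ) + 1) * (w n - w (n + 1)) := by positivity
      simp only [hg]
      linarith
    have hgt : Tendsto (fun K : ℕ => ∑ n ∈ range K, g n) atTop atTop :=
      tendsto_atTop_mono (fun K => sum_le_sum fun n _ => hgw n) hW
    have hfo : (fun n : ℕ => E (n + 1) * (w n - w (n + 1))) =o[atTop] g := by
      have h3 : (fun n : ℕ => E (n + 1)) =o[atTop] fun n : ℕ => (n : ℝ) + 1 := by
        have := hEo.comp_tendsto (tendsto_add_atTop_nat 1)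
        refine this.congr (fun n => rfl) (fun n => ?_)
        simp
      have h4 := h3.mul_isBigO (Asymptotics.isBigO_refl (fun n : ℕ => w n - w (n + 1)) atTop)
      refine h4.trans_isBigO (Asymptotics.IsBigO.of_bound 1 (Eventually.of_forall fun n => ?_))
      have := hw (Nat.le_succ n)
      have h5 : 0 ≤ w n - w (n + 1) := by
        simp only [Nat.succ_eq_add_one] at this
        linarith
      rw [one_mul, Real.norm_of_nonneg (by positivity), Real.norm_of_nonneg (hg0 n)]
      have := hw0 n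
      simp only [hg]
      linarith
    have h3 := hfo.sum_range hg0 hgt
    refine h3.trans_isBigO (Asymptotics.IsBigO.of_bound 2 (Eventually.of_forall fun K => ?_))
    rw [Real.norm_of_nonneg (sum_nonneg fun n _ => hg0 n), Real.norm_of_nonneg (sum_nonneg fun n _ => hw0 n)]
    have h4 : ∀ K : ℕ, ∑ n ∈ range K, ((n : ℝ) + 1) * (w n - w (n + 1)) = ∑ n ∈ range K, w n - K * w K := by
      intro K
      induction K with
      | zero => simp
      | succ K ih =>
        rw [sum_range_succ, ih, sum_range_succ]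
        push_cast
        ring
    simp only [hg]
    rw [sum_add_distrib, h4]
    have h5 : 0 ≤ (K : ℝ) * w K := mul_nonneg (Nat.cast_nonneg K) (hw0 K)
    linarith
  refine (h1.add h2).congr (fun K => ?_) (fun K => rfl)
  exact (habel K).symm

/-- The weight `(log n)^{1/4} / n`, made constant below 2. -/
private noncomputable def wt99 (n : ℕ) : ℝ := Real.log (max n 2 : ℕ) ^ (1 / 4 : ℝ) / (max n 2 : ℕ)

private theorem wt99_eq {n : ℕ} (hn : 2 ≤ n) : wt99 n = Real.log n ^ (1 / 4 : ℝ) / n := by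
  unfold wt99
  rw [max_eq_left hn]

private theorem wt99_pos (n : ℕ) : 0 < wt99 n := by
  unfold wt99
  have h1 : (2 : ℝ) ≤ (max n 2 : ℕ) := by exact_mod_cast le_max_right n 2
  have h2 : 0 < Real.log (max n 2 : ℕ) := Real.log_pos (by linarith)
  have h3 := Real.rpow_pos_of_pos h2 (1 / 4)
  positivity

private theorem wt99_anti : Antitone wt99 := by
  intro a b hab
  unfold wt99
  have h1 : (2 : ℝ) ≤ (max a 2 : ℕ) := by exact_mod_cast le_max_right a 2
  have h2 : ((max a 2 : ℕ) : ℝ) ≤ (max b 2 : ℕ) := by exact_mod_cast max_le_max_right 2 hab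
  set x : ℝ := ((max a 2 : ℕ) : ℝ) with hx
  set y : ℝ := ((max b 2 : ℕ) : ℝ) with hy
  have hx0 : 0 < x := by linarith
  have hy0 : 0 < y := by linarith
  have hlx : 1 / 2 ≤ Real.log x := by
    have h3 : Real.log 2 ≤ Real.log x := Real.log_le_log (by norm_num) h1
    have := Real.log_two_gt_d9
    linarith
  have hly : Real.log y ≤ Real.log x * (y / x) ^ 2 := by
    have h3 : Real.log y = Real.log x + Real.log (y / x) := by
      rw [Real.log_div hy0.ne' hx0.ne']
      ring
    have h4 : Real.log (y / x) ≤ y / x - 1 := Real.log_le_sub_one_of_pos (by positivity)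
    have h5 : 1 ≤ y / x := by
      rw [le_div_iff₀ hx0]
      linarith
    rw [h3]
    nlinarith [mul_nonneg (by linarith : (0 : ℝ) ≤ y / x - 1) (by linarith : (0 : ℝ) ≤ Real.log x - 1 / 2),
      mul_nonneg (mul_nonneg (by linarith : (0 : ℝ) ≤ y / x - 1) (by linarith : (0 : ℝ) ≤ y / x - 1))
        (by linarith : (0 : ℝ) ≤ Real.log x)]
  have h5 : 1 ≤ y / x := by
    rw [le_div_iff₀ hx0]
    linarith
  have h6 : Real.log y ≤ Real.log x * (y / x) ^ 4 := by
    refine hly.trans ?_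
    have : (y / x) ^ 2 ≤ (y / x) ^ 4 := pow_le_pow_right₀ h5 (by norm_num)
    have h7 : 0 ≤ Real.log x := by linarith
    exact mul_le_mul_of_nonneg_left this h7
  have hly0 : 0 ≤ Real.log y := Real.log_nonneg (by linarith)
  have h7 : Real.log y ^ (1 / 4 : ℝ) ≤ Real.log x ^ (1 / 4 : ℝ) * (y / x) := by
    calc Real.log y ^ (1 / 4 : ℝ) ≤ (Real.log x * (y / x) ^ 4) ^ (1 / 4 : ℝ) :=
          Real.rpow_le_rpow hly0 h6 (by norm_num)
      _ = Real.log x ^ (1 / 4 : ℝ) * ((y / x) ^ 4) ^ (1 / 4 : ℝ) :=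
          Real.mul_rpow (by linarith) (by positivity)
      _ = Real.log x ^ (1 / 4 : ℝ) * (y / x) := by
          congr 1
          rw [← Real.rpow_natCast, ← Real.rpow_mul (by positivity)]
          norm_num
  rw [div_le_div_iff₀ hy0 hx0]
  calc Real.log y ^ (1 / 4 : ℝ) * x ≤ (Real.log x ^ (1 / 4 : ℝ) * (y / x)) * x := by gcongr
    _ = Real.log x ^ (1 / 4 : ℝ) * y := by field_simp

/-- Sums that differ in finitely many terms have the same quotient by a sequence tending to infinity. -/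
private theorem shift99 {f g : ℕ → ℝ} {L : ℕ → ℝ} {c : ℝ} {k : ℕ} (h : ∀ n, k ≤ n → f n = g n)
    (hL : Tendsto L atTop atTop)
    (hf : Tendsto (fun K : ℕ => (∑ n ∈ range K, f n) / L K) atTop (𝓝 c)) :
    Tendsto (fun K : ℕ => (∑ n ∈ range K, g n) / L K) atTop (𝓝 c) := by
  have h1 : Tendsto (fun K : ℕ => (∑ n ∈ range k, (g n - f n)) / L K) atTop (𝓝 0) :=
    tendsto_const_nhds.div_atTop hL
  have h2 := hf.add h1
  rw [add_zero] at h2
  refine h2.congr' ?_
  filter_upwards [eventually_ge_atTop k] with K hK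
  rw [← add_div]
  congr 1
  have h3 : ∑ n ∈ range K, g n - ∑ n ∈ range K, f n = ∑ n ∈ range k, (g n - f n) := by
    rw [← sum_sub_distrib]
    symm
    apply sum_subset (range_mono hK)
    intro n _ hn
    rw [h n (by simpa using hn), sub_self]
  linarith

private theorem log_rpow_top99 : Tendsto (fun K : ℕ => Real.log K ^ (5 / 4 : ℝ)) atTop atTop :=
  (tendsto_rpow_atTop (by norm_num)).comp (Real.tendsto_log_atTop.comp tendsto_natCast_atTop_atTop)

private theorem wt99_sum : Tendsto (fun K : ℕ => (∑ n ∈ range K, wt99 n) / Real.log K ^ (5 / 4 : ℝ)) atTop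
    (𝓝 (4 / 5)) := by
  have h1 : Tendsto (fun n : ℕ => (Real.log n ^ (1 / 4 : ℝ)) / Real.log n ^ (1 / 4 : ℝ)) atTop (𝓝 1) := by
    refine tendsto_const_nhds.congr' ?_
    filter_upwards [eventually_ge_atTop 2] with n hn
    have hl : 0 < Real.log n := Real.log_pos (by exact_mod_cast (by omega : 1 < n))
    have hp : 0 < Real.log n ^ (1 / 4 : ℝ) := Real.rpow_pos_of_pos hl _
    exact (div_self hp.ne').symm
  have h2 := sum_asymp h1
  rw [mul_one] at h2
  exact shift99 (k := 2) (fun n hn => (wt99_eq hn).symm) log_rpow_top99 h2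

private theorem wt99_top : Tendsto (fun K : ℕ => ∑ n ∈ range K, wt99 n) atTop atTop := by
  have h1 := wt99_sum.pos_mul_atTop (by norm_num) log_rpow_top99
  refine h1.congr' ?_
  filter_upwards [log_rpow_top99.eventually_gt_atTop 0] with K hK
  field_simp

/-- The deterministic part. -/
private theorem det99 {d β : ℕ → ℝ} {m κ : ℝ} (hd0 : ∀ n, 0 ≤ d n)
    (hd : Tendsto (fun K : ℕ => (∑ n ∈ range K, d n) / K) atTop (𝓝 m))
    (hβ : Tendsto (fun n : ℕ => β n / Real.log n ^ (1 / 4 : ℝ)) atTop (𝓝 κ)) :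
    Tendsto (fun K : ℕ => (∑ n ∈ range K, d n * (β n / n)) / Real.log K ^ (5 / 4 : ℝ)) atTop
      (𝓝 (4 / 5 * κ * m)) := by
  have hW := wt99_top
  have h1 := abel_avg99 wt99_anti (fun n => (wt99_pos n).le) hW hd
  -- the sums of `d w`
  have h2 : Tendsto (fun K : ℕ => (∑ n ∈ range K, d n * wt99 n) / ∑ n ∈ range K, wt99 n) atTop (𝓝 m) := by
    have h3 := h1.tendsto_div_nhds_zero
    have h4 := h3.add (tendsto_const_nhds (x := m))
    rw [zero_add] at h4
    refine h4.congr' ?_
    filter_upwards [hW.eventually_gt_atTop 0] with K hK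
    have h5 : ∑ n ∈ range K, (d n - m) * wt99 n = ∑ n ∈ range K, d n * wt99 n - m * ∑ n ∈ range K, wt99 n := by
      rw [mul_sum, ← sum_sub_distrib]
      exact sum_congr rfl fun n _ => by ring
    rw [h5]
    field_simp
    ring
  have h3 : Tendsto (fun K : ℕ => (∑ n ∈ range K, d n * wt99 n) / Real.log K ^ (5 / 4 : ℝ)) atTop
      (𝓝 (m * (4 / 5))) := by
    refine (h2.mul wt99_sum).congr' ?_
    filter_upwards [hW.eventually_gt_atTop 0, log_rpow_top99.eventually_gt_atTop 0] with K hK hK2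
    field_simp
  -- replace `β`
  set g : ℕ → ℝ := fun n => (d n + 1) * wt99 n with hg
  have hg0 : ∀ n, 0 ≤ g n := fun n => mul_nonneg (by linarith [hd0 n]) (wt99_pos n).le
  have hgw : ∀ n, wt99 n ≤ g n := by
    intro n
    have := mul_nonneg (hd0 n) (wt99_pos n).le
    simp only [hg]
    linarith
  have hgt : Tendsto (fun K : ℕ => ∑ n ∈ range K, g n) atTop atTop :=
    tendsto_atTop_mono (fun K => sum_le_sum fun n _ => hgw n) hW
  have hfo : (fun n : ℕ => d n * (β n / n) - κ * (d n * wt99 n)) =o[atTop] g := by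
    have h4 : Tendsto (fun n : ℕ => β n / Real.log n ^ (1 / 4 : ℝ) - κ) atTop (𝓝 (κ - κ)) :=
      hβ.sub tendsto_const_nhds
    rw [sub_self] at h4
    have h5 : (fun n : ℕ => β n / Real.log n ^ (1 / 4 : ℝ) - κ) =o[atTop] fun _ : ℕ => (1 : ℝ) :=
      (Asymptotics.isLittleO_one_iff ℝ).mpr h4
    have h6 := h5.mul_isBigO (Asymptotics.isBigO_refl (fun n : ℕ => d n * wt99 n) atTop)
    have h7 : (fun n : ℕ => d n * (β n / n) - κ * (d n * wt99 n)) =o[atTop]
        fun n : ℕ => (1 : ℝ) * (d n * wt99 n) := by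
      refine h6.congr' ?_ (Eventually.of_forall fun n => rfl)
      filter_upwards [eventually_ge_atTop 2] with n hn
      have hl : 0 < Real.log n := Real.log_pos (by exact_mod_cast (by omega : 1 < n))
      have hp : 0 < Real.log n ^ (1 / 4 : ℝ) := Real.rpow_pos_of_pos hl _
      have hn' : (0 : ℝ) < n := by
        have : 0 < n := by omega
        exact_mod_cast this
      rw [wt99_eq hn]
      field_simp
    refine h7.trans_isBigO (Asymptotics.IsBigO.of_bound 1 (Eventually.of_forall fun n => ?_))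
    have h8 := mul_nonneg (hd0 n) (wt99_pos n).le
    rw [one_mul, one_mul, Real.norm_of_nonneg h8, Real.norm_of_nonneg (hg0 n)]
    have := (wt99_pos n).le
    simp only [hg]
    linarith
  have h4 := hfo.sum_range hg0 hgt
  have h5 : Tendsto (fun K : ℕ => (∑ n ∈ range K, g n) / Real.log K ^ (5 / 4 : ℝ)) atTop
      (𝓝 (m * (4 / 5) + 4 / 5)) := by
    refine (h3.add wt99_sum).congr fun K => ?_
    rw [← add_div, ← sum_add_distrib]
    congr 1
    exact sum_congr rfl fun n _ => by simp only [hg]; ring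
  have h6 := h4.tendsto_div_nhds_zero.mul h5
  rw [zero_mul] at h6
  have h7 := h6.add (h3.const_mul κ)
  have e : 0 + κ * (m * (4 / 5)) = 4 / 5 * κ * m := by ring
  rw [e] at h7
  refine h7.congr' ?_
  filter_upwards [hgt.eventually_gt_atTop 0, log_rpow_top99.eventually_gt_atTop 0] with K hK hK2
  rw [sum_sub_distrib, ← mul_sum]
  field_simp
  ring

/-- The mean of the weight on one block. -/
private noncomputable def cc99 (b : ℝ → ℂ) (n : ℕ) : ℝ := ∫ x, ‖b (2 * Real.pi * n + x)‖ ∂unif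

private theorem hasBw99 {b : ℝ → ℂ} {m : ℝ} (hb : IsW b m) : ∃ A : ℝ, 0 ≤ A ∧ HasBw b A := by
  obtain ⟨A, hA⟩ := hb.bd
  have hA0 : 0 ≤ A := by
    have h1 := hA 1 le_rfl
    have h2 := (norm_nonneg _).trans h1
    simpa using h2
  refine ⟨A, hA0, fun n hn t ht0 ht1 => ?_⟩
  have hn' : (1 : ℝ) ≤ n := by exact_mod_cast hn
  have hpi := Real.pi_gt_three
  have hpi4 := Real.pi_lt_four
  have h1 : 6 * (n : ℝ) ≤ 2 * Real.pi * n + t := by nlinarith
  have h2 : 2 * Real.pi * n + t ≤ 16 * n := by nlinarith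
  have h3 := hA (2 * Real.pi * n + t) (by linarith)
  refine h3.trans ?_
  unfold Bw
  have hlog16 : Real.log 16 ≤ 3 := by
    have h4 : Real.log 16 = 4 * Real.log 2 := by
      rw [show (16 : ℝ) = 2 ^ 4 by norm_num, Real.log_pow]
      norm_num
    have := Real.log_two_lt_d9
    linarith
  have hlogn : 0 ≤ Real.log n := Real.log_nonneg hn'
  have h4 : Real.log (2 * Real.pi * n + t) ≤ 3 + Real.log n := by
    calc Real.log (2 * Real.pi * n + t) ≤ Real.log (16 * n) := Real.log_le_log (by linarith) h2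
      _ = Real.log 16 + Real.log n := Real.log_mul (by norm_num) (by linarith)
      _ ≤ 3 + Real.log n := by linarith
  rw [div_le_div_iff₀ (by linarith) (by linarith)]
  have h5 : (1 + Real.log (2 * Real.pi * n + t)) * n ≤ (1 + Real.log n) * (2 * Real.pi * n + t) := by
    calc (1 + Real.log (2 * Real.pi * n + t)) * n ≤ (4 + Real.log n) * n := by
          apply mul_le_mul_of_nonneg_right _ (by linarith)
          linarith
      _ ≤ (1 + Real.log n) * (6 * n) := by nlinarith
      _ ≤ (1 + Real.log n) * (2 * Real.pi * n + t) := by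
          apply mul_le_mul_of_nonneg_left h1
          linarith
  calc A * (1 + Real.log (2 * Real.pi * n + t)) * n = A * ((1 + Real.log (2 * Real.pi * n + t)) * n) := by ring
    _ ≤ A * ((1 + Real.log n) * (2 * Real.pi * n + t)) := mul_le_mul_of_nonneg_left h5 hA0
    _ = A * (1 + Real.log n) * (2 * Real.pi * n + t) := by ring

private theorem Bw_nonneg99 {A : ℝ} (hA : 0 ≤ A) (n : ℕ) : 0 ≤ Bw A n := by
  unfold Bw
  have := Real.log_natCast_nonneg n
  positivity

private theorem Bw_tendsto99 (A : ℝ) : Tendsto (fun n : ℕ => Bw A n) atTop (𝓝 0) := by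
  have h1 : Tendsto (fun x : ℝ => Real.log x / x) atTop (𝓝 0) := by
    have := Real.isLittleO_log_id_atTop.tendsto_div_nhds_zero
    exact this
  have h2 : Tendsto (fun x : ℝ => A * (1 / x + Real.log x / x)) atTop (𝓝 (A * (0 + 0))) := by
    apply Tendsto.const_mul
    apply Tendsto.add _ h1
    exact tendsto_const_nhds.div_atTop tendsto_id
  rw [add_zero, mul_zero] at h2
  refine (h2.comp tendsto_natCast_atTop_atTop).congr fun n => ?_
  simp only [Function.comp, Bw]
  ring

private theorem unif_int99 (f : ℝ → ℝ) :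
    ∫ x, f x ∂unif = (2 * Real.pi)⁻¹ * ∫ x in (0 : ℝ)..(2 * Real.pi), f x := by
  unfold unif
  rw [integral_smul_measure, intervalIntegral.integral_of_le two_pi_pos'.le, restrict_Ico_eq_restrict_Ioc]
  congr 1
  rw [ENNReal.toReal_inv, ENNReal.toReal_ofReal two_pi_pos'.le]

private theorem cc_nonneg99 (b : ℝ → ℂ) (n : ℕ) : 0 ≤ cc99 b n :=
  integral_nonneg fun _ => norm_nonneg _

private theorem meas_b99 {b : ℝ → ℂ} (hb : Measurable b) (n : ℕ) :
    Measurable fun x : ℝ => b (2 * Real.pi * n + x) := hb.comp (measurable_id.const_add _)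

private theorem cc_le99 {b : ℝ → ℂ} {A : ℝ} (hA : HasBw b A) {n : ℕ} (hn : 1 ≤ n) : cc99 b n ≤ Bw A n := by
  unfold cc99
  have h1 : ‖∫ x, ‖b (2 * Real.pi * n + x)‖ ∂unif‖ ≤ Bw A n * unif.real Set.univ := by
    apply norm_integral_le_of_norm_le_const
    filter_upwards [ae_unif] with x hx
    rw [norm_norm]
    exact hA n hn x hx.1 hx.2
  rw [probReal_univ, mul_one] at h1
  exact (le_abs_self _).trans h1

private theorem cc_mean99 {b : ℝ → ℂ} {m : ℝ} (hb : IsW b m) :
    Tendsto (fun K : ℕ => (∑ n ∈ range K, (n : ℝ) * cc99 b n) / K) atTop (𝓝 (m / (2 * Real.pi))) := by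
  obtain ⟨A, hA0, hA⟩ := hasBw99 hb
  obtain ⟨A', hA'⟩ := hb.bd
  have hpi := Real.pi_gt_three
  have h2pi := two_pi_pos'
  set F : ℝ → ℝ := fun T => ∫ t in (1 : ℝ)..T, t * ‖b t‖ with hF
  have hmeas : Measurable fun t : ℝ => t * ‖b t‖ := measurable_id.mul hb.meas.norm
  have hA'0 : 0 ≤ A' := by
    have h1 := hA' 1 le_rfl
    have h2 := (norm_nonneg _).trans h1
    simpa using h2
  have hint : ∀ T : ℝ, 1 ≤ T → IntervalIntegrable (fun t : ℝ => t * ‖b t‖) volume 1 T := by
    intro T hT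
    rw [intervalIntegrable_iff_integrableOn_Ioc_of_le hT]
    refine Measure.integrableOn_of_bounded (M := A' * (1 + Real.log T)) (by simp) hmeas.aestronglyMeasurable ?_
    rw [ae_restrict_iff' measurableSet_Ioc]
    refine ae_of_all _ fun t ht => ?_
    have ht0 : 0 < t := by linarith [ht.1]
    have h1 := hA' t ht.1.le
    rw [norm_mul, norm_norm, Real.norm_of_nonneg ht0.le]
    calc t * ‖b t‖ ≤ t * (A' * (1 + Real.log t) / t) := by gcongr
      _ = A' * (1 + Real.log t) := by field_simp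
      _ ≤ A' * (1 + Real.log T) := by
          have h2 : Real.log t ≤ Real.log T := Real.log_le_log ht0 ht.2
          apply mul_le_mul_of_nonneg_left _ hA'0
          linarith
  set e : ℕ → ℝ := fun n => F (2 * Real.pi * (n + 1 : ℕ)) - F (2 * Real.pi * n) with he
  have hesum : ∀ K : ℕ, ∑ n ∈ range K, e n = F (2 * Real.pi * K) - F (2 * Real.pi * (0 : ℕ)) := fun K =>
    Finset.sum_range_sub (fun n : ℕ => F (2 * Real.pi * n)) K
  -- the mean of `e`
  have h1 : Tendsto (fun K : ℕ => (∑ n ∈ range K, e n) / K) atTop (𝓝 (2 * Real.pi * m)) := by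
    have h2 : Tendsto (fun K : ℕ => 2 * Real.pi * (K : ℝ)) atTop atTop :=
      tendsto_natCast_atTop_atTop.const_mul_atTop h2pi
    have h3 := (hb.mean.comp h2).const_mul (2 * Real.pi)
    have h4 : Tendsto (fun K : ℕ => F (2 * Real.pi * (0 : ℕ)) / (K : ℝ)) atTop (𝓝 0) :=
      tendsto_const_nhds.div_atTop tendsto_natCast_atTop_atTop
    have h5 := h3.sub h4
    rw [sub_zero] at h5
    refine h5.congr' ?_
    filter_upwards [eventually_gt_atTop 0] with K hK
    have hK' : (0 : ℝ) < K := by exact_mod_cast hK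
    rw [hesum]
    simp only [Function.comp, hF]
    field_simp
  -- one block
  have h2 : ∀ n : ℕ, 1 ≤ n → e n = 2 * Real.pi * ∫ x, (2 * Real.pi * n + x) * ‖b (2 * Real.pi * n + x)‖ ∂unif := by
    intro n hn
    have hn' : (1 : ℝ) ≤ n := by exact_mod_cast hn
    rw [unif_int99, ← mul_assoc, mul_inv_cancel₀ h2pi.ne', one_mul]
    have h3 := intervalIntegral.integral_comp_add_left (fun t : ℝ => t * ‖b t‖) (2 * Real.pi * n)
      (a := 0) (b := 2 * Real.pi)
    rw [h3]
    simp only [he, hF]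
    rw [intervalIntegral.integral_interval_sub_left (hint _ (by push_cast; nlinarith)) (hint _ (by nlinarith))]
    congr 1
    · ring
    · push_cast
      ring
  have h3 : Tendsto (fun n : ℕ => e n - 4 * Real.pi ^ 2 * (n * cc99 b n)) atTop (𝓝 0) := by
    have h4 : Tendsto (fun n : ℕ => 4 * Real.pi ^ 2 * Bw A n) atTop (𝓝 (4 * Real.pi ^ 2 * 0)) :=
      (Bw_tendsto99 A).const_mul _
    rw [mul_zero] at h4
    refine squeeze_zero_norm' ?_ h4
    filter_upwards [eventually_ge_atTop 1] with n hn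
    have hm1 : Measurable fun x : ℝ => ‖b (2 * Real.pi * n + x)‖ := (meas_b99 hb.meas n).norm
    have hB := Bw_nonneg99 hA0 n
    have hi1 : Integrable (fun x : ℝ => ‖b (2 * Real.pi * n + x)‖) unif := by
      refine Integrable.of_bound (C := Bw A n) hm1.aestronglyMeasurable ?_
      filter_upwards [ae_unif] with x hx
      rw [norm_norm]
      exact hA n hn x hx.1 hx.2
    have hi2 : Integrable (fun x : ℝ => x * ‖b (2 * Real.pi * n + x)‖) unif := by
      refine Integrable.of_bound (C := 2 * Real.pi * Bw A n) (measurable_id.mul hm1).aestronglyMeasurable ?_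
      filter_upwards [ae_unif] with x hx
      rw [norm_mul, norm_norm, Real.norm_of_nonneg hx.1]
      exact mul_le_mul hx.2.le (hA n hn x hx.1 hx.2) (norm_nonneg _) h2pi.le
    have h5 : ∫ x, (2 * Real.pi * n + x) * ‖b (2 * Real.pi * n + x)‖ ∂unif =
        2 * Real.pi * n * cc99 b n + ∫ x, x * ‖b (2 * Real.pi * n + x)‖ ∂unif := by
      unfold cc99
      rw [← integral_const_mul, ← integral_add (hi1.const_mul _) hi2]
      congr 1
      ext x
      ring
    have h6 : ‖∫ x, x * ‖b (2 * Real.pi * n + x)‖ ∂unif‖ ≤ 2 * Real.pi * Bw A n * unif.real Set.univ := by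
      apply norm_integral_le_of_norm_le_const
      filter_upwards [ae_unif] with x hx
      rw [norm_mul, norm_norm, Real.norm_of_nonneg hx.1]
      exact mul_le_mul hx.2.le (hA n hn x hx.1 hx.2) (norm_nonneg _) h2pi.le
    rw [probReal_univ, mul_one] at h6
    rw [h2 n hn, h5]
    have h7 : 2 * Real.pi * (2 * Real.pi * n * cc99 b n + ∫ x, x * ‖b (2 * Real.pi * n + x)‖ ∂unif) -
        4 * Real.pi ^ 2 * (n * cc99 b n) = 2 * Real.pi * ∫ x, x * ‖b (2 * Real.pi * n + x)‖ ∂unif := by ring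
    rw [h7, norm_mul, Real.norm_of_nonneg h2pi.le]
    calc 2 * Real.pi * ‖∫ x, x * ‖b (2 * Real.pi * n + x)‖ ∂unif‖ ≤ 2 * Real.pi * (2 * Real.pi * Bw A n) := by
          gcongr
      _ = 4 * Real.pi ^ 2 * Bw A n := by ring
  have h4 := h3.cesaro
  have h5 := (h1.sub h4).const_mul (1 / (4 * Real.pi ^ 2))
  have e1 : 1 / (4 * Real.pi ^ 2) * (2 * Real.pi * m - 0) = m / (2 * Real.pi) := by
    field_simp
    ring
  rw [e1] at h5
  refine h5.congr' ?_
  filter_upwards [eventually_gt_atTop 0] with K hK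
  have hK' : (0 : ℝ) < K := by exact_mod_cast hK
  have h6 : ∑ n ∈ range K, (e n - 4 * Real.pi ^ 2 * (n * cc99 b n)) =
      ∑ n ∈ range K, e n - 4 * Real.pi ^ 2 * ∑ n ∈ range K, (n : ℝ) * cc99 b n := by
    rw [sum_sub_distrib (fun n => e n), ← mul_sum]
  rw [h6]
  field_simp
  ring

/-- The law of large numbers on the logarithmic scale. -/
private theorem lln99 {Ω : Type*} [MeasurableSpace Ω] (P : Measure Ω) [IsProbabilityMeasure P]
    {Y : ℕ → Ω → ℝ} (hYm : ∀ n, Measurable (Y n)) (hYL : ∀ n, MemLp (Y n) 2 P)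
    (hY0 : ∀ n ω, 0 ≤ Y n ω) (hYi : ∀ m n, m ≠ n → IndepFun (Y m) (Y n) P)
    {v : ℕ → ℝ} (hv0 : ∀ n, 0 ≤ v n) (hv : ∀ n, ∫ ω, (Y n ^ 2) ω ∂P ≤ v n) (hs : Summable v)
    {μ : ℕ → ℝ} (hμ : ∀ n, ∫ ω, Y n ω ∂P = μ n) {c : ℝ}
    (hMlim : Tendsto (fun K : ℕ => (∑ n ∈ range K, μ n) / Real.log K ^ (5 / 4 : ℝ)) atTop (𝓝 c)) :
    ∀ᵐ ω ∂P, Tendsto (fun K : ℕ => (∑ n ∈ range K, Y n ω) / Real.log K ^ (5 / 4 : ℝ)) atTop (𝓝 c) := by
  set V := ∑' n : ℕ, v n with hV
  have hvar : ∀ K : ℕ, Var[∑ n ∈ range K, Y n; P] ≤ V := by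
    intro K
    rw [IndepFun.variance_sum (fun n _ => hYL n) (fun m _ n _ hmn => hYi m n hmn)]
    calc ∑ n ∈ range K, Var[Y n; P] ≤ ∑ n ∈ range K, v n := by
          apply sum_le_sum
          intro n _
          exact (variance_le_expectation_sq (hYm n).aestronglyMeasurable).trans (hv n)
      _ ≤ V := hs.sum_le_tsum _ fun n _ => hv0 n
  -- partial sums
  set S : ℕ → Ω → ℝ := fun K ω => ∑ n ∈ range K, Y n ω with hS
  set M : ℕ → ℝ := fun K => ∑ n ∈ range K, μ n with hM
  have hSM : ∀ K, ∫ ω, (∑ n ∈ range K, Y n) ω ∂P = M K := by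
    intro K
    simp only [Finset.sum_apply]
    rw [integral_finsetSum _ fun n _ => (hYL n).integrable (by norm_num)]
    exact sum_congr rfl fun n _ => hμ n
  have hprob : ∀ j : ℕ, 1 ≤ j → P {ω | (j : ℝ) ≤ |S (2 ^ j) ω - M (2 ^ j)|} ≤
      ENNReal.ofReal (V / (j : ℝ) ^ 2) := by
    intro j hj
    have hj' : (0 : ℝ) < j := by exact_mod_cast hj
    have hL : MemLp (∑ n ∈ range (2 ^ j), Y n) 2 P := memLp_finsetSum' _ fun n _ => hYL n
    have h1 := meas_ge_le_variance_div_sq hL hj'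
    rw [hSM] at h1
    refine le_trans (le_of_eq ?_) (h1.trans ?_)
    · congr 1
      ext ω
      simp [hS]
    · apply ENNReal.ofReal_le_ofReal
      gcongr
      exact hvar _
  have hBC : ∀ᵐ ω ∂P, ∀ᶠ j : ℕ in atTop, ω ∉ {ω | (j : ℝ) ≤ |S (2 ^ j) ω - M (2 ^ j)|} := by
    apply ae_eventually_notMem
    have h1 : ∑' j : ℕ, P {ω | (j : ℝ) ≤ |S (2 ^ j) ω - M (2 ^ j)|} ≤
        ∑' j : ℕ, (if j = 0 then 1 else ENNReal.ofReal (V / (j : ℝ) ^ 2)) := by
      refine ENNReal.tsum_le_tsum fun j => ?_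
      rcases Nat.eq_zero_or_pos j with h | h
      · rw [if_pos h]
        exact prob_le_one
      · rw [if_neg (by omega)]
        exact hprob j h
    have hVn : 0 ≤ V := tsum_nonneg fun n => hv0 n
    have h2 : Summable fun j : ℕ => V / (j : ℝ) ^ 2 := by
      have := ((Real.summable_one_div_nat_pow (p := 2)).mpr (by norm_num)).mul_left V
      refine this.congr fun j => ?_
      ring
    have h3 : ∑' j : ℕ, (if j = 0 then 1 else ENNReal.ofReal (V / (j : ℝ) ^ 2)) ≤
        1 + ∑' j : ℕ, ENNReal.ofReal (V / (j : ℝ) ^ 2) := by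
      calc _ ≤ ∑' j : ℕ, ((if j = 0 then 1 else 0) + ENNReal.ofReal (V / (j : ℝ) ^ 2)) := by
            refine ENNReal.tsum_le_tsum fun j => ?_
            split_ifs
            · exact le_self_add
            · exact le_add_self
        _ = _ := by
            rw [ENNReal.tsum_add, tsum_ite_eq]
    refine ne_top_of_le_ne_top ?_ (h1.trans h3)
    rw [← ENNReal.ofReal_tsum_of_nonneg (fun j => by positivity) h2]
    exact ENNReal.add_ne_top.mpr ⟨ENNReal.one_ne_top, ENNReal.ofReal_ne_top⟩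
  filter_upwards [hBC] with ω hω
  have hmono : Monotone fun K => S K ω := by
    intro a b hab
    exact sum_le_sum_of_subset_of_nonneg (range_mono hab) fun n _ _ => hY0 n ω
  -- along powers of two
  have hpow : Tendsto (fun j : ℕ => (2 : ℕ) ^ j) atTop atTop :=
    tendsto_pow_atTop_atTop_of_one_lt (by norm_num)
  have hlogpow : ∀ j : ℕ, Real.log ((2 ^ j : ℕ) : ℝ) = j * Real.log 2 := by
    intro j
    push_cast
    rw [Real.log_pow]
  have hl2 : 0 < Real.log 2 := Real.log_pos (by norm_num)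
  have herr : Tendsto (fun j : ℕ => (S (2 ^ j) ω - M (2 ^ j)) / Real.log ((2 ^ j : ℕ) : ℝ) ^ (5 / 4 : ℝ))
      atTop (𝓝 0) := by
    have h1 : Tendsto (fun j : ℕ => (Real.log 2 ^ (5 / 4 : ℝ))⁻¹ * ((j : ℝ) ^ (1 / 4 : ℝ))⁻¹) atTop
        (𝓝 ((Real.log 2 ^ (5 / 4 : ℝ))⁻¹ * 0)) := by
      apply Tendsto.const_mul
      exact ((tendsto_rpow_atTop (by norm_num)).comp tendsto_natCast_atTop_atTop).inv_tendsto_atTop
    rw [mul_zero] at h1
    refine squeeze_zero_norm' ?_ h1
    filter_upwards [hω, eventually_ge_atTop 1] with j hj hj1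
    simp only [not_le] at hj
    have hj' : (0 : ℝ) < j := by exact_mod_cast hj1
    rw [hlogpow, norm_div, Real.norm_eq_abs, Real.norm_eq_abs, Real.mul_rpow hj'.le hl2.le,
      abs_of_pos (a := (j : ℝ) ^ (5 / 4 : ℝ) * Real.log 2 ^ (5 / 4 : ℝ)) (by positivity),
      div_le_iff₀ (by positivity)]
    refine hj.le.trans (le_of_eq ?_)
    have h2 : (j : ℝ) ^ (5 / 4 : ℝ) = j * (j : ℝ) ^ (1 / 4 : ℝ) := by
      rw [← Real.rpow_one_add' hj'.le (by norm_num)]
      norm_num
    rw [h2]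
    have h3 : 0 < (j : ℝ) ^ (1 / 4 : ℝ) := Real.rpow_pos_of_pos hj' _
    have h4 : 0 < Real.log 2 ^ (5 / 4 : ℝ) := Real.rpow_pos_of_pos hl2 _
    field_simp
  have hsub : Tendsto (fun j : ℕ => S (2 ^ j) ω / Real.log ((2 ^ j : ℕ) : ℝ) ^ (5 / 4 : ℝ)) atTop
      (𝓝 c) := by
    have h1 := (hMlim.comp hpow).add herr
    rw [add_zero] at h1
    refine h1.congr fun j => ?_
    simp only [Function.comp, hM]
    ring
  -- interpolation
  have hll : Tendsto (fun K : ℕ => Nat.log 2 K) atTop atTop := by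
    rw [tendsto_atTop]
    intro b
    filter_upwards [eventually_ge_atTop (2 ^ b)] with K hK
    exact Nat.le_log_of_pow_le (by norm_num) hK
  have hq : Tendsto (fun j : ℕ => ((j : ℝ) / (j + 1)) ^ (5 / 4 : ℝ)) atTop (𝓝 1) := by
    have := (tendsto_natCast_div_add_atTop (1 : ℝ)).rpow_const (p := 5 / 4) (Or.inl one_ne_zero)
    rwa [Real.one_rpow] at this
  have hlow := ((hsub.mul hq).comp hll)
  have hqi : Tendsto (fun j : ℕ => (((j : ℝ) + 1) / j) ^ (5 / 4 : ℝ)) atTop (𝓝 1) := by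
    have h1 : Tendsto (fun j : ℕ => ((j : ℝ) / (j + 1))⁻¹) atTop (𝓝 1⁻¹) :=
      (tendsto_natCast_div_add_atTop (1 : ℝ)).inv₀ one_ne_zero
    rw [inv_one] at h1
    have h2 := h1.rpow_const (p := 5 / 4) (Or.inl one_ne_zero)
    rw [Real.one_rpow] at h2
    refine h2.congr fun j => ?_
    rw [inv_div]
  have hsub1 := hsub.comp (tendsto_add_atTop_nat 1)
  have hup := ((hsub1.mul hqi).comp hll)
  rw [mul_one] at hlow hup
  refine tendsto_of_tendsto_of_tendsto_of_le_of_le' hlow hup ?_ ?_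
  · filter_upwards [eventually_ge_atTop 2] with K hK
    have hj1 : 1 ≤ Nat.log 2 K := Nat.le_log_of_pow_le (by norm_num) (by simpa using hK)
    set j := Nat.log 2 K with hj
    have h1 : 2 ^ j ≤ K := Nat.pow_log_le_self 2 (by omega)
    have h2 : K < 2 ^ (j + 1) := Nat.lt_pow_succ_log_self (by norm_num) K
    have hj' : (0 : ℝ) < j := by exact_mod_cast hj1
    have hK0 : (0 : ℝ) < K := by
      have : 0 < K := by omega
      exact_mod_cast this
    have h3 : Real.log K ≤ (j + 1) * Real.log 2 := by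
      have h4 := Real.log_le_log hK0 (show (K : ℝ) ≤ ((2 ^ (j + 1) : ℕ) : ℝ) by exact_mod_cast h2.le)
      rw [hlogpow] at h4
      push_cast at h4
      exact h4
    have h5 : 0 < Real.log K := Real.log_pos (by exact_mod_cast (by omega : 1 < K))
    have hSnn : 0 ≤ S (2 ^ j) ω := sum_nonneg fun n _ => hY0 n ω
    simp only [Function.comp]
    rw [← hj, hlogpow]
    calc S (2 ^ j) ω / (j * Real.log 2) ^ (5 / 4 : ℝ) * ((j : ℝ) / (j + 1)) ^ (5 / 4 : ℝ)
        = S (2 ^ j) ω / (((j : ℝ) + 1) * Real.log 2) ^ (5 / 4 : ℝ) := by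
          rw [Real.div_rpow hj'.le (by positivity), Real.mul_rpow hj'.le hl2.le,
            Real.mul_rpow (by positivity) hl2.le]
          have e1 : 0 < (j : ℝ) ^ (5 / 4 : ℝ) := Real.rpow_pos_of_pos hj' _
          have e2 : 0 < Real.log 2 ^ (5 / 4 : ℝ) := Real.rpow_pos_of_pos hl2 _
          have e3 : 0 < ((j : ℝ) + 1) ^ (5 / 4 : ℝ) := Real.rpow_pos_of_pos (by linarith) _
          field_simp
      _ ≤ S (2 ^ j) ω / Real.log K ^ (5 / 4 : ℝ) := by
          gcongr
      _ ≤ S K ω / Real.log K ^ (5 / 4 : ℝ) := by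
          gcongr
          exact hmono h1
  · filter_upwards [eventually_ge_atTop 2] with K hK
    have hj1 : 1 ≤ Nat.log 2 K := Nat.le_log_of_pow_le (by norm_num) (by simpa using hK)
    set j := Nat.log 2 K with hj
    have h1 : 2 ^ j ≤ K := Nat.pow_log_le_self 2 (by omega)
    have h2 : K < 2 ^ (j + 1) := Nat.lt_pow_succ_log_self (by norm_num) K
    have hj' : (0 : ℝ) < j := by exact_mod_cast hj1
    have h3 : j * Real.log 2 ≤ Real.log K := by
      have h4 := Real.log_le_log (by positivity) (show ((2 ^ j : ℕ) : ℝ) ≤ K by exact_mod_cast h1)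
      rw [hlogpow] at h4
      exact h4
    have hSnn : 0 ≤ S (2 ^ (j + 1)) ω := sum_nonneg fun n _ => hY0 n ω
    simp only [Function.comp]
    rw [← hj, hlogpow]
    calc S K ω / Real.log K ^ (5 / 4 : ℝ)
        ≤ S (2 ^ (j + 1)) ω / Real.log K ^ (5 / 4 : ℝ) := by
          gcongr
          exact hmono h2.le
      _ ≤ S (2 ^ (j + 1)) ω / ((j : ℝ) * Real.log 2) ^ (5 / 4 : ℝ) := by
          gcongr
      _ = S (2 ^ (j + 1)) ω / (((j + 1 : ℕ) : ℝ) * Real.log 2) ^ (5 / 4 : ℝ) *
          (((j : ℝ) + 1) / j) ^ (5 / 4 : ℝ) := by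
          push_cast
          rw [Real.div_rpow (by positivity) hj'.le, Real.mul_rpow hj'.le hl2.le,
            Real.mul_rpow (by positivity) hl2.le]
          have e1 : 0 < (j : ℝ) ^ (5 / 4 : ℝ) := Real.rpow_pos_of_pos hj' _
          have e2 : 0 < Real.log 2 ^ (5 / 4 : ℝ) := Real.rpow_pos_of_pos hl2 _
          have e3 : 0 < ((j : ℝ) + 1) ^ (5 / 4 : ℝ) := Real.rpow_pos_of_pos (by linarith) _
          field_simp

private theorem var_summable99 (A : ℝ) : Summable fun n : ℕ => Bw A n ^ 2 * sz n := by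
  have h1 : Summable fun n : ℕ => (729 * A ^ 2) * (1 / (n : ℝ) ^ (13 / 8 : ℝ)) :=
    ((Real.summable_one_div_nat_rpow).mpr (by norm_num)).mul_left _
  refine Summable.of_nonneg_of_le (fun n => by positivity) (fun n => ?_) h1
  rcases Nat.eq_zero_or_pos n with rfl | hn
  · have h2 : (0 : ℝ) ^ (13 / 8 : ℝ) = 0 := Real.zero_rpow (by norm_num)
    simp [h2, Bw]
  have hn' : (0 : ℝ) < n := by exact_mod_cast hn
  have hn1 : (1 : ℝ) ≤ n := by exact_mod_cast hn
  set r := (n : ℝ) ^ (1 / 8 : ℝ) with hr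
  have hr0 : 0 < r := Real.rpow_pos_of_pos hn' _
  have hr1 : 1 ≤ r := Real.one_le_rpow hn1 (by norm_num)
  have hlog0 : 0 ≤ Real.log n := Real.log_nonneg hn1
  have hlog : Real.log n ≤ 8 * r := by
    have h2 := Real.log_le_rpow_div hn'.le (show (0 : ℝ) < 1 / 8 by norm_num)
    calc Real.log n ≤ r / (1 / 8) := h2
      _ = 8 * r := by ring
  have h3 : 1 + Real.log n ≤ 9 * r := by linarith
  have p1 : (n : ℝ) ^ (13 / 8 : ℝ) = r ^ 13 := by
    rw [hr, ← Real.rpow_natCast, ← Real.rpow_mul hn'.le]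
    norm_num
  have p2 : (n : ℝ) = r ^ 8 := by
    rw [hr, ← Real.rpow_natCast, ← Real.rpow_mul hn'.le]
    norm_num
  have hsz : (sz n : ℝ) ≤ 9 * r := (sz_le_log n).trans (by linarith)
  unfold Bw
  rw [p1]
  calc (A * (1 + Real.log n) / n) ^ 2 * (sz n : ℝ)
      = A ^ 2 * ((1 + Real.log n) ^ 2 * (sz n : ℝ)) / (n : ℝ) ^ 2 := by
        rw [div_pow, mul_pow]
        ring
    _ ≤ A ^ 2 * ((9 * r) ^ 2 * (9 * r)) / (n : ℝ) ^ 2 := by
        gcongr
    _ = 729 * A ^ 2 * (1 / r ^ 13) := by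
        conv_lhs => rw [p2]
        field_simp
        ring

section

variable {Ω : Type*} [MeasurableSpace Ω] (P : Measure Ω) [IsProbabilityMeasure P]
  (θ : (n : ℕ) → Ω → (Fin (sz n) → ℝ)) (hm : ∀ n, Measurable (θ n)) (hi : iIndepFun θ P)
  (hl : ∀ n, P.map (θ n) = cue (sz n))

include hm hl

omit [IsProbabilityMeasure P] in
private theorem ah_le99 {b : ℝ → ℂ} {A : ℝ} (hA : HasBw b A) (n : ℕ) :
    ∀ᵐ ω ∂P, ah (fun t => b (2 * Real.pi * n + t)) (θ n ω) ≤ Bw A n * amp (θ n ω) := by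
  rcases Nat.eq_zero_or_pos n with rfl | hn
  · refine ae_of_all _ fun ω => ?_
    have : IsEmpty (Fin (sz 0)) := by
      have : sz 0 = 0 := by simp [sz]
      rw [this]
      infer_instance
    have h1 : ah (fun t => b (2 * Real.pi * (0 : ℕ) + t)) (θ 0 ω) = 0 := Finset.sum_of_isEmpty _
    have h2 : amp (θ 0 ω) = 0 := Finset.sum_of_isEmpty _
    rw [h1, h2, mul_zero]
  · have h1 : ∀ᵐ x ∂(P.map (θ n)), ∀ j, 0 ≤ x j ∧ x j < 2 * Real.pi := by
      rw [hl n]
      exact ae_boxN (sz n)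
    have h2 := ae_of_ae_map (hm n).aemeasurable h1
    filter_upwards [h2] with ω hω
    unfold ah amp
    rw [mul_sum]
    apply sum_le_sum
    intro j _
    rw [div_eq_mul_one_div]
    exact mul_le_mul_of_nonneg_right (hA n hn _ (hω j).1 (hω j).2) (by positivity)

private theorem ah_mean99 {b : ℝ → ℂ} {m : ℝ} (hb : IsW b m) (n : ℕ) :
    ∫ ω, ah (fun t => b (2 * Real.pi * n + t)) (θ n ω) ∂P = cc99 b n * bb n := by
  obtain ⟨A, hA0, hA⟩ := hasBw99 hb
  have hmb := meas_b99 hb.meas n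
  have hmah := meas_ah hmb (sz n)
  rcases Nat.eq_zero_or_pos (sz n) with h0 | h0
  · have : IsEmpty (Fin (sz n)) := by
      rw [h0]
      infer_instance
    have h1 : ∀ ω, ah (fun t => b (2 * Real.pi * n + t)) (θ n ω) = 0 := fun ω => Finset.sum_of_isEmpty _
    simp_rw [h1]
    unfold bb
    rw [if_pos h0]
    simp
  have hn : 1 ≤ n := by
    rcases Nat.eq_zero_or_pos n with rfl | h
    · simp [sz] at h0
    · exact h
  rw [integral_law P θ hm hl n hmah]
  have hah0 : ∀ x : Fin (sz n) → ℝ, 0 ≤ ah (fun t => b (2 * Real.pi * n + t)) x := fun x =>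
    sum_nonneg fun j _ => by positivity
  have h1 := mean_ah_of (cue_prob (sz n)) hmb
  have h2 := amp_mean (sz n) h0
  rw [integral_eq_lintegral_of_nonneg_ae (ae_of_all _ hah0) hmah.aestronglyMeasurable, h1]
  rw [← ofReal_integral_eq_lintegral_ofReal h2.1 (ae_of_all _ fun x => amp_nonneg x), h2.2]
  have hi1 : Integrable (fun x : ℝ => b (2 * Real.pi * n + x)) unif := by
    refine Integrable.of_bound (C := Bw A n) hmb.aestronglyMeasurable ?_
    filter_upwards [ae_unif] with x hx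
    exact hA n hn x hx.1 hx.2
  have h3 : ∫⁻ x, ‖b (2 * Real.pi * n + x)‖ₑ ∂unif = ENNReal.ofReal (cc99 b n) := by
    unfold cc99
    rw [ofReal_integral_norm_eq_lintegral_enorm hi1]
  rw [h3, ← ENNReal.ofReal_mul (cc_nonneg99 b n), ENNReal.toReal_ofReal]
  · unfold bb
    rw [if_neg (by omega)]
  · refine mul_nonneg (cc_nonneg99 b n) ?_
    rw [← h2.2]
    exact integral_nonneg fun x => amp_nonneg x

include hi

/-- The law of large numbers for the sums of the absolute values with a weight. -/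
theorem lln_w {b : ℝ → ℂ} {m : ℝ} (hb : IsW b m) {κ : ℝ}
    (hκ : Tendsto (fun N : ℕ => (∏ j ∈ Icc 1 N, aa j) / (N : ℝ) ^ (1 / 4 : ℝ)) atTop (𝓝 κ)) :
    ∀ᵐ ω ∂P, Tendsto (fun K : ℕ => CW b (fun n => θ n ω) K / Real.log K ^ (5 / 4 : ℝ)) atTop
      (𝓝 (4 / 5 * κ * m / (2 * Real.pi))) := by
  obtain ⟨A, hA0, hA⟩ := hasBw99 hb
  set Y : ℕ → Ω → ℝ := fun n ω => ah (fun t => b (2 * Real.pi * n + t)) (θ n ω) with hY
  have hmah : ∀ n, Measurable fun x : Fin (sz n) → ℝ => ah (fun t => b (2 * Real.pi * n + t)) x := fun n =>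
    meas_ah (meas_b99 hb.meas n) (sz n)
  have hYm : ∀ n, Measurable (Y n) := fun n => (hmah n).comp (hm n)
  have hY0 : ∀ n ω, 0 ≤ Y n ω := fun n ω => sum_nonneg fun j _ => by positivity
  have hYle : ∀ n, ∀ᵐ ω ∂P, Y n ω ^ 2 ≤ Bw A n ^ 2 * amp (θ n ω) ^ 2 := by
    intro n
    filter_upwards [ah_le99 P θ hm hl hA n] with ω hω
    rw [← mul_pow]
    exact pow_le_pow_left₀ (hY0 n ω) hω 2
  have hi2 : ∀ n, Integrable (fun ω => Bw A n ^ 2 * amp (θ n ω) ^ 2) P := fun n =>
    (amp_sq_int P θ hm hl n).1.const_mul _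
  have hYsq : ∀ n, Integrable (fun ω => Y n ω ^ 2) P := by
    intro n
    refine (hi2 n).mono' ((hYm n).pow_const 2).aestronglyMeasurable ?_
    filter_upwards [hYle n] with ω hω
    rw [Real.norm_of_nonneg (by positivity)]
    exact hω
  have hYL : ∀ n, MemLp (Y n) 2 P := fun n =>
    (memLp_two_iff_integrable_sq (hYm n).aestronglyMeasurable).mpr (hYsq n)
  have hYi : ∀ m n, m ≠ n → IndepFun (Y m) (Y n) P := by
    intro m n hmn
    exact (hi.indepFun hmn).comp (hmah m) (hmah n)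
  have hv : ∀ n, ∫ ω, (Y n ^ 2) ω ∂P ≤ Bw A n ^ 2 * sz n := by
    intro n
    calc ∫ ω, (Y n ^ 2) ω ∂P = ∫ ω, Y n ω ^ 2 ∂P := rfl
      _ ≤ ∫ ω, Bw A n ^ 2 * amp (θ n ω) ^ 2 ∂P := integral_mono_ae (hYsq n) (hi2 n) (hYle n)
      _ = Bw A n ^ 2 * ∫ ω, amp (θ n ω) ^ 2 ∂P := integral_const_mul _ _
      _ ≤ Bw A n ^ 2 * sz n := by
          gcongr
          exact (amp_sq_int P θ hm hl n).2
  have hlim : Tendsto (fun K : ℕ => (∑ n ∈ range K, cc99 b n * bb n) / Real.log K ^ (5 / 4 : ℝ)) atTop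
      (𝓝 (4 / 5 * κ * m / (2 * Real.pi))) := by
    have h1 := det99 (fun n => mul_nonneg (Nat.cast_nonneg n) (cc_nonneg99 b n)) (cc_mean99 hb) (bb_lim hκ)
    have e : 4 / 5 * κ * (m / (2 * Real.pi)) = 4 / 5 * κ * m / (2 * Real.pi) := by ring
    rw [e] at h1
    refine h1.congr fun K => ?_
    congr 1
    refine sum_congr rfl fun n _ => ?_
    rcases Nat.eq_zero_or_pos n with rfl | hn
    · have : bb 0 = 0 := by
        unfold bb
        rw [if_pos (by simp [sz])]
      rw [this]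
      simp
    · have hn' : (0 : ℝ) < n := by exact_mod_cast hn
      field_simp
  exact lln99 P hYm hYL hY0 hYi (fun n => by positivity) hv (var_summable99 A)
    (fun n => ah_mean99 P θ hm hl hb n) hlim

end

end Pool.Agent.Helper66.RMT
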