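import Pool.Agent.Helper99.RMT.A5

/-!
# Random matrix model: no small linear forms in the ordinates (block B4)
-/

set_option autoImplicit false

namespace Pool.Agent.Helper66.RMT

open MeasureTheory ProbabilityTheory Filter Finset Topology

private lemma ind99 {Ω α : Type*} [MeasurableSpace Ω] [MeasurableSpace α] (P : Measure Ω) [IsProbabilityMeasure P]
    (X : Ω → α) (Y : Ω → ℝ) (hX : Measurable X) (hY : Measurable Y) (hXY : IndepFun X Y P) (a : α → ℝ)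
    (ha : Measurable a) (δ : ℝ) (q : ENNReal) (h : ∀ c : ℝ, (P.map X) {x | |a x + c| < δ} ≤ q) :
    P {ω | |a (X ω) + Y ω| < δ} ≤ q := by
  have hS : MeasurableSet {p : α × ℝ | |a p.1 + p.2| < δ} :=
    measurableSet_lt (((ha.comp measurable_fst).add measurable_snd).norm) measurable_const
  have h1 : P {ω | |a (X ω) + Y ω| < δ} = (P.map fun ω => (X ω, Y ω)) {p : α × ℝ | |a p.1 + p.2| < δ} := by
    rw [Measure.map_apply (hX.prodMk hY) hS]
    rfl
  have := Measure.isProbabilityMeasure_map (μ := P) hX.aemeasurable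
  have := Measure.isProbabilityMeasure_map (μ := P) hY.aemeasurable
  rw [h1, (indepFun_iff_map_prod_eq_prod_map_map hX.aemeasurable hY.aemeasurable).1 hXY,
    Measure.prod_apply_symm hS]
  calc (∫⁻ y, (P.map X) ((fun x => (x, y)) ⁻¹' {p : α × ℝ | |a p.1 + p.2| < δ}) ∂(P.map Y))
      ≤ ∫⁻ _y, q ∂(P.map Y) := lintegral_mono fun y => h y
    _ = q := by rw [lintegral_const, measure_univ, mul_one]

section

variable {Ω : Type*} [MeasurableSpace Ω] (P : Measure Ω) [IsProbabilityMeasure P]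
  (θ : (n : ℕ) → Ω → (Fin (sz n) → ℝ)) (hm : ∀ n, Measurable (θ n)) (hi : iIndepFun θ P)
  (hl : ∀ n, P.map (θ n) = cue (sz n))

include hm hi hl

private lemma one99 (hP : ∀ M, IsProbabilityMeasure (cue M)) (s : Finset ℕ) (K : ℕ) (hK : ∀ n ∈ s, sz n ≤ K)
    (m : (n : ℕ) → Fin (sz n) → ℤ) (n0 : ℕ) (hn0 : n0 ∈ s) (hm0 : m n0 ≠ 0) (δ : ℝ) (hδ : 0 < δ) :
    P {ω | |∑ n ∈ s, ∑ j, (m n j : ℝ) * (2 * Real.pi * n + θ n ω j)| < δ} ≤ ENNReal.ofReal (4 ^ K * δ) := by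
  classical
  set Y : Ω → ℝ := fun ω => ∑ n ∈ s.erase n0, ∑ j, (m n j : ℝ) * (2 * Real.pi * n + θ n ω j) with hYdef
  set a : (Fin (sz n0) → ℝ) → ℝ := fun x => ∑ j, (m n0 j : ℝ) * (2 * Real.pi * n0 + x j) with hadef
  have ha : Measurable a := by
    rw [hadef]
    fun_prop
  have hmj : ∀ n j, Measurable fun ω => θ n ω j := fun n j => (measurable_pi_apply j).comp (hm n)
  have hY : Measurable Y := by
    rw [hYdef]
    refine Finset.measurable_sum _ fun n _ => Finset.measurable_sum _ fun j _ => ?_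
    exact measurable_const.mul (measurable_const.add (hmj n j))
  have hXY : IndepFun (θ n0) Y P := by
    have h := hi.indepFun_finset {n0} (s.erase n0) (by simp) hm
    have hφ : Measurable (fun f : (i : ({n0} : Finset ℕ)) → (Fin (sz i) → ℝ) => f ⟨n0, Finset.mem_singleton_self n0⟩) :=
      measurable_pi_apply (⟨n0, Finset.mem_singleton_self n0⟩ : ({n0} : Finset ℕ))
    have h2 := h.comp (φ := fun f : (i : ({n0} : Finset ℕ)) → (Fin (sz i) → ℝ) => f ⟨n0, Finset.mem_singleton_self n0⟩)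
      (ψ := fun f : (i : (s.erase n0 : Finset ℕ)) → (Fin (sz i) → ℝ) =>
        ∑ i : (s.erase n0 : Finset ℕ), ∑ j, (m i j : ℝ) * (2 * Real.pi * (i : ℕ) + f i j))
      hφ (by fun_prop)
    have h3 : Y = (fun f : (i : (s.erase n0 : Finset ℕ)) → (Fin (sz i) → ℝ) =>
        ∑ i : (s.erase n0 : Finset ℕ), ∑ j, (m i j : ℝ) * (2 * Real.pi * (i : ℕ) + f i j)) ∘
        (fun (a : Ω) (i : (s.erase n0 : Finset ℕ)) => θ i a) := by
      funext w
      show ∑ n ∈ s.erase n0, ∑ j, (m n j : ℝ) * (2 * Real.pi * n + θ n w j) =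
        ∑ i : (s.erase n0 : Finset ℕ), ∑ j, (m i j : ℝ) * (2 * Real.pi * (i : ℕ) + θ i w j)
      rw [← Finset.sum_coe_sort (s.erase n0) (fun n => ∑ j, (m n j : ℝ) * (2 * Real.pi * n + θ n w j))]
    rw [h3]
    exact h2
  have hsum : ∀ ω, ∑ n ∈ s, ∑ j, (m n j : ℝ) * (2 * Real.pi * n + θ n ω j) = a (θ n0 ω) + Y ω := by
    intro ω
    rw [← Finset.add_sum_erase s _ hn0]
  simp only [hsum]
  refine ind99 P (θ n0) Y (hm n0) hY hXY a ha δ _ fun c => ?_
  rw [hl n0]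
  have e1 : ∀ x : Fin (sz n0) → ℝ, a x + c = ∑ j, (m n0 j : ℝ) * x j + (∑ j, (m n0 j : ℝ) * (2 * Real.pi * n0) + c) := by
    intro x
    simp only [hadef, mul_add, Finset.sum_add_distrib]
    ring
  simp only [e1]
  refine (lin_small_of hP (m n0) hm0 _ δ hδ).trans ?_
  refine ENNReal.ofReal_le_ofReal ?_
  refine mul_le_mul_of_nonneg_right ?_ hδ.le
  exact pow_le_pow_right₀ (by norm_num) (hK n0 hn0)

omit hm hi hl in
private lemma sz_le99 {k n : ℕ} (h : n < 2 ^ k) : sz n ≤ k := by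
  unfold sz
  rcases Nat.eq_zero_or_pos n with h0 | h0
  · subst h0; simp
  refine Nat.floor_le_of_le ?_
  have h1 : (0 : ℝ) < n := by exact_mod_cast h0
  calc Real.log n ≤ Real.log (2 ^ k) := Real.log_le_log h1 (by exact_mod_cast h.le)
    _ = k * Real.log 2 := Real.log_pow _ _
    _ ≤ k * 1 := mul_le_mul_of_nonneg_left (by linarith [Real.log_two_lt_d9]) (Nat.cast_nonneg k)
    _ = k := mul_one _

omit hm hi hl [MeasurableSpace Ω] in
private lemma ev99 (ε : ℝ) (hε : 0 < ε) : ∃ k₁ : ℕ, ∀ k ≥ k₁,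
    ((2 * k + 1 : ℝ)) ^ (k * 2 ^ k) * (4 ^ k * Real.exp (-(2 : ℝ) ^ ((k : ℝ) * (1 + ε)))) ≤ (1 / 2) ^ k := by
  have hr : (1 : ℝ) < 2 ^ ε := Real.one_lt_rpow (by norm_num) hε
  have h := tendsto_pow_const_div_const_pow_of_one_lt 2 hr
  have h2 : ∀ᶠ k : ℕ in atTop, ((k : ℝ) ^ 2 / (2 ^ ε) ^ k) < 1 / 6 := h.eventually (gt_mem_nhds (by norm_num))
  obtain ⟨k₁, hk₁⟩ := eventually_atTop.1 h2
  refine ⟨max k₁ 1, fun k hk => ?_⟩
  have hk1 : 1 ≤ k := (le_max_right _ _).trans hk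
  have hkr : (1 : ℝ) ≤ k := by exact_mod_cast hk1
  have h3 := hk₁ k ((le_max_left _ _).trans hk)
  have hp : (0 : ℝ) < (2 ^ ε) ^ k := by positivity
  rw [div_lt_iff₀ hp] at h3
  have h4 : 6 * (k : ℝ) ^ 2 ≤ (2 ^ ε) ^ k := by linarith
  have h5 : ((2 : ℝ) ^ ε) ^ k = 2 ^ ((k : ℝ) * ε) := by
    rw [← Real.rpow_natCast, ← Real.rpow_mul (by norm_num), mul_comm]
  have h6 : (2 : ℝ) ^ ((k : ℝ) * (1 + ε)) = 2 ^ k * (2 ^ ε) ^ k := by
    rw [h5, ← Real.rpow_natCast 2 k, ← Real.rpow_add (by norm_num)]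
    congr 1; ring
  have hexp : ∀ x : ℝ, 0 < x → x = Real.exp (Real.log x) := fun x hx => (Real.exp_log hx).symm
  have hlog : Real.log (2 * k + 1) ≤ 2 * k := by
    have := Real.log_le_sub_one_of_pos (show (0 : ℝ) < 2 * k + 1 by positivity)
    linarith
  have e1 : ((2 * k + 1 : ℝ)) ^ (k * 2 ^ k) = Real.exp ((k * 2 ^ k : ℕ) * Real.log (2 * k + 1)) := by
    rw [mul_comm (((k * 2 ^ k : ℕ) : ℝ)) _, Real.exp_mul, Real.exp_log (by positivity), Real.rpow_natCast]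
  have e2 : (4 : ℝ) ^ k = Real.exp (k * Real.log 4) := by
    rw [mul_comm (k : ℝ) _, Real.exp_mul, Real.exp_log (by norm_num), Real.rpow_natCast]
  have e3 : ((1 : ℝ) / 2) ^ k = Real.exp (-(k * Real.log 2)) := by
    rw [show -((k : ℝ) * Real.log 2) = Real.log (1 / 2) * k by rw [one_div, Real.log_inv]; ring,
      Real.exp_mul, Real.exp_log (by norm_num), Real.rpow_natCast]
  rw [e1, e2, e3, ← Real.exp_add, ← Real.exp_add]
  refine Real.exp_le_exp.2 ?_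
  rw [h6]
  have hl4 : Real.log 4 = 2 * Real.log 2 := by
    rw [show (4 : ℝ) = 2 ^ 2 by norm_num, Real.log_pow]; norm_num
  have hl2 : Real.log 2 ≤ 1 := by linarith [Real.log_two_lt_d9]
  have hl20 : 0 ≤ Real.log 2 := Real.log_nonneg (by norm_num)
  have h2k : (1 : ℝ) ≤ 2 ^ k := one_le_pow₀ (by norm_num)
  push_cast
  have a1 : (k : ℝ) * 2 ^ k * Real.log (2 * k + 1) ≤ 2 ^ k * (2 * k ^ 2) := by
    calc (k : ℝ) * 2 ^ k * Real.log (2 * k + 1) ≤ (k : ℝ) * 2 ^ k * (2 * k) :=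
          mul_le_mul_of_nonneg_left hlog (by positivity)
      _ = 2 ^ k * (2 * k ^ 2) := by ring
  have a2 : 2 ^ k * (6 * (k : ℝ) ^ 2) ≤ 2 ^ k * (2 ^ ε) ^ k := mul_le_mul_of_nonneg_left h4 (by positivity)
  have a3 : (k : ℝ) * Real.log 4 + k * Real.log 2 ≤ 3 * k := by
    rw [hl4]
    nlinarith
  have a4 : 3 * (k : ℝ) ≤ 2 ^ k * (3 * k ^ 2) := by
    have : (k : ℝ) ≤ k ^ 2 := by nlinarith
    nlinarith [mul_le_mul h2k this (by positivity) (by positivity : (0 : ℝ) ≤ 2 ^ k)]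
  have a5 : 0 ≤ (2 : ℝ) ^ k * (k : ℝ) ^ 2 := by positivity
  nlinarith

/-- B4 with the normalisation as a hypothesis -/
theorem forms_of (hP : ∀ M, IsProbabilityMeasure (cue M)) (ε : ℝ) (hε : 0 < ε) :
    ∀ᵐ ω ∂P, ∃ k₀ : ℕ, ∀ k ≥ k₀, ∀ m : (n : ℕ) → Fin (sz n) → ℤ, (∀ n j, |m n j| ≤ k) →
      (∃ n < 2 ^ k, ∃ j, m n j ≠ 0) →
      Real.exp (-(2 : ℝ) ^ ((k : ℝ) * (1 + ε))) ≤
        |∑ n ∈ range (2 ^ k), ∑ j, (m n j : ℝ) * (2 * Real.pi * n + θ n ω j)| := by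
  classical
  set δ : ℕ → ℝ := fun k => Real.exp (-(2 : ℝ) ^ ((k : ℝ) * (1 + ε))) with hδdef
  have hδ : ∀ k, 0 < δ k := fun k => Real.exp_pos _
  -- extension of a finite array
  set ext : (k : ℕ) → ((Σ n : Fin (2 ^ k), Fin (sz n)) → ℤ) → (n : ℕ) → Fin (sz n) → ℤ :=
    fun k g n j => if h : n < 2 ^ k then g ⟨⟨n, h⟩, j⟩ else 0 with hext
  set G : (k : ℕ) → Finset ((Σ n : Fin (2 ^ k), Fin (sz n)) → ℤ) :=
    fun k => (Fintype.piFinset fun _ => Finset.Icc (-(k : ℤ)) k).filter (fun g => g ≠ 0) with hG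
  set E : ℕ → Set Ω := fun k => ⋃ g ∈ G k, {ω | |∑ n ∈ range (2 ^ k), ∑ j, (ext k g n j : ℝ) *
    (2 * Real.pi * n + θ n ω j)| < δ k} with hE
  obtain ⟨k₁, hk₁⟩ := ev99 ε hε
  have hcard : ∀ k, ((G k).card : ℝ) ≤ (2 * k + 1 : ℝ) ^ (k * 2 ^ k) := by
    intro k
    have h1 : (G k).card ≤ (2 * k + 1) ^ (Fintype.card (Σ n : Fin (2 ^ k), Fin (sz n))) := by
      refine (Finset.card_filter_le _ _).trans ?_
      rw [Fintype.card_piFinset]
      simp only [Int.card_Icc, Finset.prod_const, Finset.card_univ]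
      refine Nat.pow_le_pow_left ?_ _
      omega
    have h2 : Fintype.card (Σ n : Fin (2 ^ k), Fin (sz n)) ≤ k * 2 ^ k := by
      rw [Fintype.card_sigma]
      simp only [Fintype.card_fin]
      calc ∑ n : Fin (2 ^ k), sz n ≤ ∑ _n : Fin (2 ^ k), k := Finset.sum_le_sum fun n _ => sz_le99 n.2
        _ = k * 2 ^ k := by simp [mul_comm]
    have h3 : (G k).card ≤ (2 * k + 1) ^ (k * 2 ^ k) := h1.trans (Nat.pow_le_pow_right (by omega) h2)
    exact_mod_cast h3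
  have hEk : ∀ k, P (E k) ≤ ENNReal.ofReal (((2 * k + 1 : ℝ)) ^ (k * 2 ^ k) * (4 ^ k * δ k)) := by
    intro k
    calc P (E k) ≤ ∑ g ∈ G k, P {ω | |∑ n ∈ range (2 ^ k), ∑ j, (ext k g n j : ℝ) *
          (2 * Real.pi * n + θ n ω j)| < δ k} := measure_biUnion_finset_le _ _
      _ ≤ ∑ _g ∈ G k, ENNReal.ofReal (4 ^ k * δ k) := by
          refine Finset.sum_le_sum fun g hg => ?_
          have hg0 : g ≠ 0 := (Finset.mem_filter.1 hg).2
          obtain ⟨⟨⟨n0, hn0⟩, j0⟩, hx⟩ := Function.ne_iff.1 hg0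
          refine one99 P θ hm hi hl hP (range (2 ^ k)) k (fun n hn => sz_le99 (Finset.mem_range.1 hn))
            (ext k g) n0 (Finset.mem_range.2 hn0) ?_ (δ k) (hδ k)
          intro h0
          apply hx
          have := congrFun h0 j0
          simp only [hext, hn0, dif_pos, Pi.zero_apply] at this
          exact this
      _ = ((G k).card : ENNReal) * ENNReal.ofReal (4 ^ k * δ k) := by rw [Finset.sum_const, nsmul_eq_mul]
      _ = ENNReal.ofReal ((G k).card * (4 ^ k * δ k)) := by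
          rw [ENNReal.ofReal_mul (Nat.cast_nonneg _), ENNReal.ofReal_natCast]
      _ ≤ _ := by
          refine ENNReal.ofReal_le_ofReal (mul_le_mul_of_nonneg_right (hcard k) ?_)
          have := hδ k
          positivity
  set E' : ℕ → Set Ω := fun k => if k₁ ≤ k then E k else ∅ with hE'
  have hE'k : ∀ k, P (E' k) ≤ (ENNReal.ofReal (1 / 2)) ^ k := by
    intro k
    by_cases hk : k₁ ≤ k
    · simp only [hE', hk, if_true]
      refine (hEk k).trans ?_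
      rw [← ENNReal.ofReal_pow (by norm_num)]
      exact ENNReal.ofReal_le_ofReal (hk₁ k hk)
    · simp [hE', hk]
  have hsum : (∑' k, P (E' k)) ≠ ⊤ := by
    refine ne_top_of_le_ne_top ?_ (ENNReal.tsum_le_tsum hE'k)
    rw [ENNReal.tsum_geometric]
    refine ENNReal.inv_ne_top.2 ?_
    rw [Ne, tsub_eq_zero_iff_le, not_le, ENNReal.ofReal_lt_one]
    norm_num
  filter_upwards [ae_eventually_notMem hsum] with ω hω
  obtain ⟨k₂, hk₂⟩ := eventually_atTop.1 hω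
  refine ⟨max k₁ k₂, fun k hk m hmk hne => ?_⟩
  have h1 := hk₂ k ((le_max_right _ _).trans hk)
  simp only [hE', (le_max_left k₁ k₂).trans hk, if_true] at h1
  by_contra hcon
  apply h1
  rw [not_le] at hcon
  simp only [hE, Set.mem_iUnion]
  set g : (Σ n : Fin (2 ^ k), Fin (sz n)) → ℤ := fun x => m x.1 x.2 with hgdef
  have hgG : g ∈ G k := by
    simp only [hG, Finset.mem_filter, Fintype.mem_piFinset, Finset.mem_Icc]
    refine ⟨fun x => abs_le.1 (hmk _ _), ?_⟩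
    obtain ⟨n, hn, j, hj⟩ := hne
    intro h0
    exact hj (congrFun h0 ⟨⟨n, hn⟩, j⟩)
  refine ⟨g, hgG, ?_⟩
  show |∑ n ∈ range (2 ^ k), ∑ j, (ext k g n j : ℝ) * (2 * Real.pi * n + θ n ω j)| < δ k
  have e : ∑ n ∈ range (2 ^ k), ∑ j, (ext k g n j : ℝ) * (2 * Real.pi * n + θ n ω j) =
      ∑ n ∈ range (2 ^ k), ∑ j, (m n j : ℝ) * (2 * Real.pi * n + θ n ω j) := by
    refine Finset.sum_congr rfl fun n hn => Finset.sum_congr rfl fun j _ => ?_
    have hn' := Finset.mem_range.1 hn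
    simp only [hext, hn', dif_pos, hgdef]
  rw [e]
  exact hcon

end

end Pool.Agent.Helper66.RMT
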