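import Pool.Agent.Helper51.DO.L1

/-!
# Kronecker's theorem with a bound (block C1)

Mean values over an interval of products of Fejer kernels.
-/

set_option autoImplicit false

namespace Pool.Agent.Helper66.RMT

open MeasureTheory Finset Pool.Agent.Helper51.DO

private lemma int_exp99 (U L lam δ : ℝ) (hδ : 0 < δ) (h : δ ≤ |lam|) :
    ‖∫ u in U..(U + L), Complex.exp ((u * lam : ℝ) * Complex.I)‖ ≤ 2 / δ := by
  have hl : lam ≠ 0 := by
    intro h0
    rw [h0, abs_zero] at h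
    linarith
  have hlI : (lam : ℂ) * Complex.I ≠ 0 := mul_ne_zero (by exact_mod_cast hl) Complex.I_ne_zero
  have e : ∀ u : ℝ, Complex.exp ((u * lam : ℝ) * Complex.I) = Complex.exp ((lam * Complex.I) * u) := by
    intro u
    congr 1
    push_cast
    ring
  simp only [e]
  rw [integral_exp_mul_complex hlI, norm_div]
  have h1 : ‖Complex.exp (lam * Complex.I * ((U + L : ℝ) : ℂ)) - Complex.exp (lam * Complex.I * (U : ℂ))‖ ≤ 2 := by
    refine (norm_sub_le _ _).trans ?_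
    have h2 : ∀ x : ℝ, ‖Complex.exp (lam * Complex.I * (x : ℂ))‖ = 1 := by
      intro x
      rw [show (lam : ℂ) * Complex.I * (x : ℂ) = ((lam * x : ℝ) : ℂ) * Complex.I by push_cast; ring,
        Complex.norm_exp_ofReal_mul_I]
    rw [h2, h2]
    norm_num
  have h3 : ‖(lam : ℂ) * Complex.I‖ = |lam| := by
    rw [norm_mul, Complex.norm_I, mul_one, Complex.norm_real, Real.norm_eq_abs]
  rw [h3]
  exact div_le_div₀ (by norm_num) h1 hδ h

private lemma mean99 {ι : Type*} [Fintype ι] [DecidableEq ι] (f : ι → ℝ → ℝ) (M : ℕ) (S f0 : ι → ℝ)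
    (hf : ∀ i, TP (f i) M (S i) (f0 i)) (γ φ : ι → ℝ) (δ L U : ℝ) (hδ : 0 < δ)
    (hγ : ∀ m : ι → ℤ, (∀ i, |m i| ≤ M) → m ≠ 0 → δ ≤ |∑ i, (m i : ℝ) * γ i|) :
    ‖(∫ u in U..(U + L), ((∏ i, f i (u * γ i + φ i) : ℝ) : ℂ)) - L * ((∏ i, f0 i : ℝ) : ℂ)‖ ≤
      (∏ i, S i) * (2 / δ) := by
  choose p hp hS h0 using hf
  set Q : Finset (ι → ℤ) := Fintype.piFinset fun _ => Icc (-(M : ℤ)) M with hQ
  set A : (ι → ℤ) → ℂ := fun q => ∏ i, p i (q i) * Complex.exp (((q i : ℝ) * φ i : ℝ) * Complex.I) with hA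
  have e1 : ∀ u : ℝ, ((∏ i, f i (u * γ i + φ i) : ℝ) : ℂ) =
      ∑ q ∈ Q, A q * Complex.exp ((u * ∑ i, (q i : ℝ) * γ i : ℝ) * Complex.I) := by
    intro u
    rw [Complex.ofReal_prod]
    simp only [hp]
    rw [Finset.prod_univ_sum]
    refine Finset.sum_congr rfl fun q _ => ?_
    have e2 : Complex.exp ((u * ∑ i, (q i : ℝ) * γ i : ℝ) * Complex.I) =
        ∏ i, Complex.exp ((u * ((q i : ℝ) * γ i) : ℝ) * Complex.I) := by
      rw [← Complex.exp_sum]
      congr 1
      rw [Finset.mul_sum]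
      push_cast
      rw [Finset.sum_mul]
    rw [e2, hA, ← Finset.prod_mul_distrib]
    refine Finset.prod_congr rfl fun i _ => ?_
    rw [mul_assoc, ← Complex.exp_add]
    congr 2
    push_cast
    ring
  have hAn : ∀ q, ‖A q‖ = ∏ i, ‖p i (q i)‖ := by
    intro q
    rw [hA, norm_prod]
    refine Finset.prod_congr rfl fun i _ => ?_
    rw [norm_mul, Complex.norm_exp_ofReal_mul_I, mul_one]
  have hAS : ∑ q ∈ Q, ‖A q‖ ≤ ∏ i, S i := by
    simp only [hAn]
    rw [hQ, ← Finset.prod_univ_sum (fun _ => Icc (-(M : ℤ)) M) (fun i m => ‖p i m‖)]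
    exact Finset.prod_le_prod (fun i _ => Finset.sum_nonneg fun _ _ => norm_nonneg _) fun i _ => hS i
  have hA0 : A 0 = ((∏ i, f0 i : ℝ) : ℂ) := by
    rw [hA, Complex.ofReal_prod]
    refine Finset.prod_congr rfl fun i _ => ?_
    simp [h0]
  have h0Q : (0 : ι → ℤ) ∈ Q := by
    rw [hQ, Fintype.mem_piFinset]
    intro i
    simp
  have hint : ∀ q ∈ Q, IntervalIntegrable (fun u : ℝ => A q * Complex.exp ((u * ∑ i, (q i : ℝ) * γ i : ℝ) * Complex.I))
      volume U (U + L) := by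
    intro q _
    refine Continuous.intervalIntegrable ?_ _ _
    fun_prop
  have e3 : (∫ u in U..(U + L), ((∏ i, f i (u * γ i + φ i) : ℝ) : ℂ)) =
      ∑ q ∈ Q, A q * ∫ u in U..(U + L), Complex.exp ((u * ∑ i, (q i : ℝ) * γ i : ℝ) * Complex.I) := by
    simp only [e1]
    rw [intervalIntegral.integral_finsetSum hint]
    refine Finset.sum_congr rfl fun q _ => ?_
    rw [intervalIntegral.integral_const_mul]
  rw [e3, ← Finset.add_sum_erase Q _ h0Q]
  have e4 : (∫ u in U..(U + L), Complex.exp ((u * ∑ i, (((0 : ι → ℤ) i : ℤ) : ℝ) * γ i : ℝ) * Complex.I)) = (L : ℂ) := by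
    simp
  rw [e4, hA0, mul_comm, add_sub_cancel_left]
  calc ‖∑ q ∈ Q.erase 0, A q * ∫ u in U..(U + L), Complex.exp ((u * ∑ i, (q i : ℝ) * γ i : ℝ) * Complex.I)‖
      ≤ ∑ q ∈ Q.erase 0, ‖A q * ∫ u in U..(U + L), Complex.exp ((u * ∑ i, (q i : ℝ) * γ i : ℝ) * Complex.I)‖ :=
        norm_sum_le _ _
    _ ≤ ∑ q ∈ Q.erase 0, ‖A q‖ * (2 / δ) := by
        refine Finset.sum_le_sum fun q hq => ?_
        rw [norm_mul]
        refine mul_le_mul_of_nonneg_left ?_ (norm_nonneg _)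
        have hq2 := (Finset.mem_erase.1 hq).2
        rw [hQ, Fintype.mem_piFinset] at hq2
        refine int_exp99 U L _ δ hδ (hγ q (fun i => ?_) (Finset.mem_erase.1 hq).1)
        exact abs_le.2 (Finset.mem_Icc.1 (hq2 i))
    _ ≤ ∑ q ∈ Q, ‖A q‖ * (2 / δ) :=
        Finset.sum_le_sum_of_subset_of_nonneg (Finset.erase_subset _ _) fun q _ _ => by positivity
    _ = (∑ q ∈ Q, ‖A q‖) * (2 / δ) := by rw [Finset.sum_mul]
    _ ≤ _ := mul_le_mul_of_nonneg_right hAS (by positivity)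

/-- C1. Kronecker's theorem with a bound. -/
theorem kron {ι : Type*} [Fintype ι] [DecidableEq ι] (γ : ι → ℝ) (c : ι → ℂ) (D : ℕ) (δ L U : ℝ)
    (hδ : 0 < δ) (hL : 0 < L)
    (hγ : ∀ m : ι → ℤ, (∀ i, |m i| ≤ D + 1) → m ≠ 0 → δ ≤ |∑ i, (m i : ℝ) * γ i|)
    (hLD : (4 * (D + 1)) ^ (Fintype.card ι + 2) * (D + 1) ≤ L * δ) :
    ∃ u : ℝ, U ≤ u ∧ u ≤ U + L ∧
      (1 - 2 / (D + 1 : ℝ)) * ∑ i, ‖c i‖ ≤ ∑ i, (c i * Complex.exp ((u * γ i : ℝ) * Complex.I)).re := by
  set φ : ι → ℝ := fun i => (c i).arg with hφ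
  set b : ℝ := 1 - 2 / (D + 1 : ℝ) with hb
  have hD0 : (0 : ℝ) < (D : ℝ) + 1 := by positivity
  have hD1 : (1 : ℝ) ≤ (D : ℝ) + 1 := by
    have : (0 : ℝ) ≤ D := Nat.cast_nonneg D
    linarith
  have hb1 : |b| ≤ 1 := by
    rw [abs_le, hb]
    have h1 : 2 / ((D : ℝ) + 1) ≤ 2 := by
      rw [div_le_iff₀ hD0]; linarith
    have h2 : 0 < 2 / ((D : ℝ) + 1) := by positivity
    constructor <;> linarith
  have hre : ∀ (u : ℝ) (i : ι), (c i * Complex.exp ((u * γ i : ℝ) * Complex.I)).re =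
      ‖c i‖ * Real.cos (u * γ i + φ i) := by
    intro u i
    have h1 : c i * Complex.exp ((u * γ i : ℝ) * Complex.I) =
        ((‖c i‖ : ℝ) : ℂ) * Complex.exp ((u * γ i + φ i : ℝ) * Complex.I) := by
      conv_lhs => rw [← Complex.norm_mul_exp_arg_mul_I (c i)]
      rw [mul_assoc, ← Complex.exp_add]
      congr 2
      rw [hφ]
      push_cast
      ring
    rw [h1, Complex.re_ofReal_mul, Complex.exp_ofReal_mul_I_re]
  by_cases hc : ∑ i, ‖c i‖ = 0
  · refine ⟨U, le_rfl, by linarith, ?_⟩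
    rw [hc, mul_zero]
    refine Finset.sum_nonneg fun i _ => ?_
    have : ‖c i‖ = 0 := by
      have := (Finset.sum_eq_zero_iff_of_nonneg fun i _ => norm_nonneg (c i)).1 hc i (Finset.mem_univ i)
      exact this
    rw [hre, this, zero_mul]
  have hcpos : 0 < ∑ i, ‖c i‖ := lt_of_le_of_ne (Finset.sum_nonneg fun i _ => norm_nonneg _) (Ne.symm hc)
  by_contra hcon
  push Not at hcon
  set W : ℝ → ℝ := fun u => ∏ i, fej D (u * γ i + φ i) with hW
  set g : ℝ → ℝ := fun u => ∑ i, ‖c i‖ * (Real.cos (u * γ i + φ i) - b) with hg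
  have hgneg : ∀ u, U ≤ u → u ≤ U + L → g u ≤ 0 := by
    intro u h1 h2
    have h3 := hcon u h1 h2
    simp only [hre] at h3
    simp only [hg, mul_sub, Finset.sum_sub_distrib, ← Finset.sum_mul]
    linarith
  have hWnn : ∀ u, 0 ≤ W u := fun u => Finset.prod_nonneg fun i _ => fej_nonneg D _
  -- the functions
  set F : ι → ι → ℝ → ℝ := fun k i => if i = k then qf D b else fej D with hF
  have hprod : ∀ (k : ι) (u : ℝ), ∏ i, F k i (u * γ i + φ i) = W u * (Real.cos (u * γ k + φ k) - b) := by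
    intro k u
    rw [← Finset.mul_prod_erase Finset.univ _ (Finset.mem_univ k)]
    have h1 : ∏ i ∈ Finset.univ.erase k, F k i (u * γ i + φ i) =
        ∏ i ∈ Finset.univ.erase k, fej D (u * γ i + φ i) := by
      refine Finset.prod_congr rfl fun i hi => ?_
      simp only [hF, (Finset.mem_erase.1 hi).1, if_false]
    rw [h1]
    have h2 : W u = fej D (u * γ k + φ k) * ∏ i ∈ Finset.univ.erase k, fej D (u * γ i + φ i) := by
      rw [hW]
      exact (Finset.mul_prod_erase Finset.univ (fun i => fej D (u * γ i + φ i)) (Finset.mem_univ k)).symm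
    rw [h2]
    simp only [hF, if_true, qf]
    ring
  set n := Fintype.card ι with hn
  have hTP : ∀ k i, TP (F k i) (D + 1) (2 * (D + 1)) (if i = k then (D : ℝ) / (D + 1) - b else 1) := by
    intro k i
    by_cases h : i = k
    · simp only [hF, h, if_true]
      exact qf_TP D b hb1
    · simp only [hF, h, if_false]
      exact fej_TP D
  have hmean : ∀ k, L * (1 / (D + 1)) - (2 * ((D : ℝ) + 1)) ^ n * (2 / δ) ≤
      ∫ u in U..(U + L), W u * (Real.cos (u * γ k + φ k) - b) := by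
    intro k
    have h1 := mean99 (F k) (D + 1) (fun _ => 2 * (D + 1)) (fun i => if i = k then (D : ℝ) / (D + 1) - b else 1)
      (hTP k) γ φ δ L U hδ (fun m hm hm0 => hγ m (fun i => by simpa using hm i) hm0)
    have h2 : ∏ i : ι, (if i = k then (D : ℝ) / (D + 1) - b else 1) = 1 / (D + 1) := by
      rw [Finset.prod_ite_eq' Finset.univ k]
      simp only [Finset.mem_univ, if_true, hb]
      field_simp
      ring
    have h3 : ∏ _i : ι, (2 * ((D : ℝ) + 1)) = (2 * ((D : ℝ) + 1)) ^ n := by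
      rw [Finset.prod_const, Finset.card_univ]
    rw [h2, h3] at h1
    have h4 : (∫ u in U..(U + L), ((∏ i, F k i (u * γ i + φ i) : ℝ) : ℂ)) =
        ((∫ u in U..(U + L), W u * (Real.cos (u * γ k + φ k) - b) : ℝ) : ℂ) := by
      rw [← intervalIntegral.integral_ofReal]
      simp only [hprod]
    rw [h4, ← Complex.ofReal_mul, ← Complex.ofReal_sub, Complex.norm_real, Real.norm_eq_abs] at h1
    linarith [(abs_le.1 h1).1]
  have hcontW : Continuous W := by
    rw [hW]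
    unfold fej
    fun_prop
  have hcont : ∀ k, Continuous fun u => W u * (Real.cos (u * γ k + φ k) - b) := by
    intro k
    exact hcontW.mul (by fun_prop)
  have htot : (∫ u in U..(U + L), W u * g u) = ∑ k, ‖c k‖ * ∫ u in U..(U + L), W u * (Real.cos (u * γ k + φ k) - b) := by
    have e : ∀ u, W u * g u = ∑ k, ‖c k‖ * (W u * (Real.cos (u * γ k + φ k) - b)) := by
      intro u
      rw [hg, Finset.mul_sum]
      refine Finset.sum_congr rfl fun k _ => ?_
      ring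
    simp only [e]
    rw [intervalIntegral.integral_finsetSum fun k _ => ((hcont k).const_mul _).intervalIntegrable _ _]
    refine Finset.sum_congr rfl fun k _ => ?_
    rw [intervalIntegral.integral_const_mul]
  have hle : (∫ u in U..(U + L), W u * g u) ≤ 0 := by
    have h1 : 0 ≤ ∫ u in U..(U + L), -(W u * g u) := by
      refine intervalIntegral.integral_nonneg (by linarith) fun u hu => ?_
      have h2 := mul_nonpos_of_nonneg_of_nonpos (hWnn u) (hgneg u hu.1 hu.2)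
      linarith
    rw [intervalIntegral.integral_neg] at h1
    linarith
  rw [htot] at hle
  have hlow : (∑ k, ‖c k‖) * (L * (1 / (D + 1)) - (2 * ((D : ℝ) + 1)) ^ n * (2 / δ)) ≤
      ∑ k, ‖c k‖ * ∫ u in U..(U + L), W u * (Real.cos (u * γ k + φ k) - b) := by
    rw [Finset.sum_mul]
    exact Finset.sum_le_sum fun k _ => mul_le_mul_of_nonneg_left (hmean k) (norm_nonneg _)
  have hpos : 0 < L * (1 / (D + 1)) - (2 * ((D : ℝ) + 1)) ^ n * (2 / δ) := by
    have hP : 0 < (2 * ((D : ℝ) + 1)) ^ n := by positivity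
    have h1 : (2 * ((D : ℝ) + 1)) ^ n ≤ (4 * ((D : ℝ) + 1)) ^ n :=
      pow_le_pow_left₀ (by positivity) (by linarith) n
    have h2 : (4 * ((D : ℝ) + 1)) ^ (n + 2) * ((D : ℝ) + 1) ≤ L * δ := hLD
    have h3 : (4 * ((D : ℝ) + 1)) ^ (n + 2) = (4 * ((D : ℝ) + 1)) ^ n * (16 * ((D : ℝ) + 1) ^ 2) := by
      rw [pow_add]; ring
    rw [h3] at h2
    have h4 : (2 * ((D : ℝ) + 1)) ^ n * 2 * ((D : ℝ) + 1) < L * δ := by
      refine lt_of_lt_of_le ?_ h2
      have h5 : (1 : ℝ) ≤ ((D : ℝ) + 1) ^ 2 := one_le_pow₀ hD1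
      have h6 : (2 * ((D : ℝ) + 1)) ^ n * 2 < (4 * ((D : ℝ) + 1)) ^ n * (16 * ((D : ℝ) + 1) ^ 2) := by
        calc (2 * ((D : ℝ) + 1)) ^ n * 2 ≤ (4 * ((D : ℝ) + 1)) ^ n * 2 :=
              mul_le_mul_of_nonneg_right h1 (by norm_num)
          _ < (4 * ((D : ℝ) + 1)) ^ n * (16 * ((D : ℝ) + 1) ^ 2) := by
              refine mul_lt_mul_of_pos_left ?_ (lt_of_lt_of_le hP h1)
              linarith
      exact mul_lt_mul_of_pos_right h6 hD0
    have h7 : (2 * ((D : ℝ) + 1)) ^ n * (2 / δ) < L * (1 / (D + 1)) := by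
      rw [mul_one_div, ← mul_div_assoc, div_lt_div_iff₀ hδ hD0]
      exact h4
    linarith
  have := mul_pos hcpos hpos
  linarith

end Pool.Agent.Helper66.RMT
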